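import Pool.Agent.Lib.MP_cbe08d_co.Sf.Sub

/-! Contraction. -/

set_option autoImplicit false

namespace Pool.Agent.Lib.MP_cbe08d_co.Sf

open Equiv SimpleGraph Pool.Agent.Lib.MP_77dff5_pr

variable {D D' U U' V W : Type} {a g : ℕ} {o : Prop} {σ α c : Perm D} {G : SimpleGraph V}

/-- `σ * swap x y = swap p q * σ`, so the face permutation is conjugated. -/
theorem Df.contract' [Finite D] [DecidableEq D] (h : Df a σ α) {p q x y : D} (hp : α p = q)
    (hq : α q = p) (hs : ¬σ.SameCycle p q) (hx : σ x = p) (hy : σ y = q) :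
    Df a (σ * swap x y) (α * swap p q) := by
  have _ := hq
  have hpq : p ≠ q := fun e => hs (e.sameCycle σ)
  have hs' : ¬σ.SameCycle x y := fun e => hs (hx ▸ hy ▸ e.apply_left.apply_right)
  have e1 := ncyc_mul_swap_of_not σ hs'
  have e2 := ncyc_mul_swap_of_same α (a := p) (b := q)
    (by rw [← hp]; exact Perm.sameCycle_apply_right.2 Perm.SameCycle.rfl) hpq
  have hm : ncyc (σ * swap x y * (α * swap p q)) = ncyc (σ * α) := by
    rw [mul_swap_eq_swap_mul σ, hx, hy, mul_assoc, ncyc_mul_comm, mul_assoc, mul_swap_mul_self]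
  have hpq' : Relation.EqvGen (fun a b => b = (σ * swap x y) a ∨ b = (α * swap p q) a) p q :=
    emb1_left (hx ▸ hy ▸ (emb1_merge hs' x).symm.trans
      ((permA_sameCycle_swap σ hs').symm.trans (emb1_merge hs' y)))
  have e3 : ncomp (σ * swap x y) (α * swap p q) ≤ ncomp σ α :=
    permB_ncomp_le (fun z => emb1_left (emb1_merge hs' z))
      fun z => (emb1_swap hpq' z).trans _ _ _ (Relation.EqvGen.rel _ _
        (Or.inr (by rw [Perm.mul_apply, swap_apply_self])))
  unfold Df at h ⊢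
  omega

/-- the two sheets may be renamed at some vertices -/
theorem Mir.switch {ν : D → U × Bool} (h : Mir a o σ α c ν) (ho : ¬o) (t : U → Bool) :
    Mir a o σ α c fun x => ((ν x).1, xor (t (ν x).1) (ν x).2) := by
  refine ⟨fun x y => (h.rot x y).trans ?_, h.ai, h.ci, h.cs, h.ca, fun x => ?_, h.df,
    fun h' => absurd h' ho⟩
  · simp only [Prod.ext_iff]
    exact and_congr_right fun e => by rw [e, Bool.xor_right_inj]
  · simp [h.nc]

theorem ctr_ne {ν : D → U × Bool} (h : Mir a o σ α c ν) {x y : D} (e : (ν x).2 = (ν y).2) :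
    c x ≠ y := fun e' => by
  have := congrArg Prod.snd (h.nc x)
  rw [e', e] at this
  simp at this

/-- the four darts of an edge and its mirror image -/
def ctr_P (c : Perm D) (p q x : D) : Prop := x = p ∨ x = q ∨ x = c p ∨ x = c q

theorem ctr_P_c (ci : Function.Involutive c) {p q x : D} (h : ctr_P c p q x) :
    ctr_P c p q (c x) := by
  rcases h with rfl | rfl | rfl | rfl <;> simp [ctr_P, ci _]

theorem ctr_P_a {ν : D → U × Bool} (h : Mir a o σ α c ν) {p q x : D} (hq : α p = q)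
    (hx : ctr_P c p q x) : ctr_P c p q (α x) := by
  subst hq
  rcases hx with rfl | rfl | rfl | rfl <;> simp [ctr_P, ← h.ca, h.ai _]

theorem ctr_fix [DecidableEq D] {ν : D → U × Bool} (h : Mir a o σ α c ν) {p q x : D}
    (hq : α p = q) (h2 : (ν p).2 = (ν q).2) (hx : ctr_P c p q x) :
    (α * swap p q * swap (c p) (c q)) x = x := by
  have hq' : α q = p := by rw [← hq, h.ai]
  rw [Perm.mul_apply, Perm.mul_apply]
  rcases hx with rfl | rfl | rfl | rfl
  · rw [swap_apply_of_ne_of_ne (ctr_ne h rfl).symm (ctr_ne h h2.symm).symm, swap_apply_left, hq']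
  · rw [swap_apply_of_ne_of_ne (ctr_ne h h2).symm (ctr_ne h rfl).symm, swap_apply_right, hq]
  · rw [swap_apply_left, swap_apply_of_ne_of_ne (ctr_ne h h2.symm) (ctr_ne h rfl), ← h.ca, hq']
  · rw [swap_apply_right, swap_apply_of_ne_of_ne (ctr_ne h rfl) (ctr_ne h h2), ← h.ca, hq]

theorem ctr_off [DecidableEq D] {p q x : D} (hx : ¬ctr_P c p q x) :
    (α * swap p q * swap (c p) (c q)) x = α x := by
  simp only [ctr_P, not_or] at hx
  rw [Perm.mul_apply, Perm.mul_apply, swap_apply_of_ne_of_ne hx.2.2.1 hx.2.2.2,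
    swap_apply_of_ne_of_ne hx.1 hx.2.1]

/-- One edge `p, α p` and its mirror image: `Mir.merge`, `Df.contract`, `Df.contract'`. -/
theorem Mir.step [Finite D] [DecidableEq D] [DecidableEq U] {ν : D → U × Bool}
    (h : Mir a o σ α c ν) {p q : D} (hq : α p = q) (h1 : (ν p).1 ≠ (ν q).1)
    (h2 : (ν p).2 = (ν q).2) :
    Mir a o (σ * swap p q * swap (c (σ p)) (c (σ q))) (α * swap p q * swap (c p) (c q)) c
      (fun z => (if (ν z).1 = (ν q).1 then (ν p).1 else (ν z).1, (ν z).2)) := by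
  have hq' : α q = p := by rw [← hq, h.ai]
  have hne : ν p ≠ ν q := fun e => h1 (congrArg Prod.fst e)
  have hs : ∀ x, (ν (σ x)).2 = (ν x).2 := fun x => by rw [rot_apply h.rot]
  obtain ⟨m1, m2, -⟩ := h.merge h1 h2 rfl
  refine ⟨m1, fun x => ?_, h.ci, m2, fun x => ?_, fun x => by simp only [h.nc], ?_, fun ho x => ?_⟩
  · by_cases hx : ctr_P c p q x
    · rw [ctr_fix h hq h2 hx, ctr_fix h hq h2 hx]
    · rw [ctr_off hx, ctr_off fun e => hx (h.ai x ▸ ctr_P_a h hq e), h.ai]
  · by_cases hx : ctr_P c p q x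
    · rw [ctr_fix h hq h2 hx, ctr_fix h hq h2 (ctr_P_c h.ci hx)]
    · rw [ctr_off hx, ctr_off fun e => hx (h.ci x ▸ ctr_P_c h.ci e), h.ca]
  · refine (h.df.contract hq hq' (mt (h.rot p q).1 hne)).contract' ?_ ?_ ?_ ?_ ?_
    · rw [Perm.mul_apply, swap_apply_of_ne_of_ne (ctr_ne h rfl) (ctr_ne h h2), ← h.ca, hq]
    · rw [Perm.mul_apply, swap_apply_of_ne_of_ne (ctr_ne h h2.symm) (ctr_ne h rfl), ← h.ca, hq']
    · rw [rot_merge h.rot hne]
      simp [h.nc, Prod.ext_iff, h1, h2]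
    · rw [Perm.mul_apply, swap_apply_of_ne_of_ne (ctr_ne h (hs p)) (ctr_ne h ((hs p).trans h2)),
        h.cs]
    · rw [Perm.mul_apply, swap_apply_of_ne_of_ne (ctr_ne h ((hs q).trans h2.symm))
        (ctr_ne h (hs q)), h.cs]
  · by_cases hx : ctr_P c p q x
    · rw [ctr_fix h hq h2 hx]
    · rw [ctr_off hx]
      exact h.ori ho x

theorem ctr_sign {ν : D → U × Bool} (h : Mir a o σ α c ν) {p : D} (h1 : (ν p).1 ≠ (ν (α p)).1) :
    ∃ s : D → Bool, Mir a o σ α c (fun x => ((ν x).1, s x)) ∧ s p = s (α p) := by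
  classical
  by_cases h2 : (ν p).2 = (ν (α p)).2
  · exact ⟨fun x => (ν x).2, h, h2⟩
  · refine ⟨_, h.switch (fun ho => h2 (h.ori ho p).symm) fun u => decide (u = (ν p).1), ?_⟩
    simp [h1.symm, Bool.eq_not_of_ne h2]

/-- Model: `emb1_contract` of `Pl/Emb1.lean`; induction on `ncyc σ` (or on the number of values of
`fun x => (ν x).1`); use `Mir.switch` first when the signs of `p` and `α p` differ. -/
theorem Mir.contract [Finite D] {ν : D → U × Bool} (h : Mir a o σ α c ν) (b : U → W)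
    (hl : ∀ x y, b (ν x).1 = b (ν y).1 → Relation.EqvGen
      (fun p q => (ν p).1 = (ν q).1 ∨ (q = α p ∧ b (ν p).1 = b (ν q).1)) x y) :
    ∃ (σ' α' : Perm D) (ν' : D → W × Bool), Mir a o σ' α' c ν' ∧ (∀ x, (ν' x).1 = b (ν x).1) ∧
      ∀ x, b (ν x).1 ≠ b (ν (α x)).1 → α' x = α x := by
  classical
  induction hk : (Set.range fun x => (ν x).1).ncard using Nat.strong_induction_on
    generalizing σ α ν with
  | _ k ih =>
  by_cases hp : ∃ p, b (ν p).1 = b (ν (α p)).1 ∧ (ν p).1 ≠ (ν (α p)).1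
  · obtain ⟨p, hp1, hp2⟩ := hp
    obtain ⟨s, hm, hs⟩ := ctr_sign h hp2
    obtain ⟨q, hq⟩ : ∃ q, α p = q := ⟨_, rfl⟩
    rw [hq] at hp1 hp2 hs
    have e1 : ∀ z, b (if (ν z).1 = (ν q).1 then (ν p).1 else (ν z).1) = b (ν z).1 := fun z => by
      split_ifs with e
      · rw [e, hp1]
      · rfl
    have e2 : ∀ z, ctr_P c p q z →
        (if (ν z).1 = (ν q).1 then (ν p).1 else (ν z).1) = (ν p).1 := by
      rintro z (rfl | rfl | rfl | rfl) <;> simp [h.nc]
    obtain ⟨σ', α', ν', r1, r2, r3⟩ := ih _ (hk ▸ Set.ncard_lt_ncard (by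
        refine ⟨?_, fun e => ?_⟩
        · rintro _ ⟨z, rfl⟩
          dsimp only
          split_ifs
          exacts [⟨p, rfl⟩, ⟨z, rfl⟩]
        · obtain ⟨z, hz⟩ := e ⟨q, rfl⟩
          dsimp only at hz
          split_ifs at hz with e'
          exacts [hp2 hz, e' hz]) (Set.finite_range _)) (hm.step hq hp2 hs)
      (fun x y hxy => by
        simp only [e1] at hxy ⊢
        refine permA_eqv id ?_ (hl x y hxy)
        rintro u v (h1 | ⟨h1, h2⟩)
        · exact .rel _ _ (Or.inl (by simp only [id, h1]))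
        by_cases h3 : ctr_P c p q u
        · exact .rel _ _ (Or.inl ((e2 u h3).trans (e2 v (h1 ▸ ctr_P_a h hq h3)).symm))
        · exact .rel _ _ (Or.inr ⟨h1.trans (ctr_off h3).symm, h2⟩)) rfl
    simp only [e1] at r2 r3
    refine ⟨σ', α', ν', r1, r2, fun x hx => ?_⟩
    have h1 : ¬ctr_P c p q x := fun e => hx (by
      rw [← e1 x, ← e1 (α x), e2 x e, e2 _ (ctr_P_a h hq e)])
    rw [← ctr_off (α := α) h1] at hx ⊢
    exact r3 x hx
  · have key : ∀ x y, b (ν x).1 = b (ν y).1 → (ν x).1 = (ν y).1 := fun x y e => by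
      have h' := hl x y e
      clear e
      induction h' with
      | rel u v e =>
        rcases e with e | ⟨rfl, e⟩
        · exact e
        · by_contra hn
          exact hp ⟨u, e, hn⟩
      | refl u => rfl
      | symm u v _ ih => exact ih.symm
      | trans u v w _ _ ih1 ih2 => exact ih1.trans ih2
    refine ⟨σ, α, fun x => (b (ν x).1, (ν x).2), ⟨fun x y => (h.rot x y).trans ?_, h.ai, h.ci, h.cs,
      h.ca, fun x => by simp only [h.nc], h.df, h.ori⟩, fun _ => rfl, fun _ _ => rfl⟩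
    simp only [Prod.ext_iff]
    exact and_congr_left' ⟨congrArg b, key x y⟩

/-- contraction of connected fibres; model: `EG.contract` of `Pl/Emb1.lean` -/
theorem EG.contract (h : EG g G) (f : V → W)
    (hf : ∀ a b, f a = f b → Relation.ReflTransGen (fun p q => G.Adj p q ∧ f p = f q) a b)
    {H : SimpleGraph W} (hH : ∀ p q, H.Adj p q → ∃ a b, G.Adj a b ∧ f a = p ∧ f b = q) :
    EG g H := by
  obtain ⟨D, _, σ, α, c, ν, ⟨a, o, h1, h2⟩, h3⟩ := h
  obtain ⟨σ', α', ν', r1, r2, r3⟩ := h2.contract f fun x y hxy => by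
    have key : ∀ b, Relation.ReflTransGen (fun p q => G.Adj p q ∧ f p = f q) (ν x).1 b →
        ∀ y, (ν y).1 = b → Relation.EqvGen
          (fun p q => (ν p).1 = (ν q).1 ∨ (q = α p ∧ f (ν p).1 = f (ν q).1)) x y := by
      intro b hb
      induction hb with
      | refl => exact fun y e => .rel _ _ (Or.inl e.symm)
      | @tail p q _ hpq ih =>
        intro y e
        obtain ⟨d, d1, d2⟩ := h3.cov (p, true) q hpq.1
        have d3 : (ν d).1 = p := by rw [d1]
        exact .trans _ d _ (ih _ d3) (.trans _ (α d) _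
          (.rel _ _ (Or.inr ⟨rfl, by rw [d3, d2, hpq.2]⟩)) (.rel _ _ (Or.inl (d2.trans e.symm))))
    exact key _ (hf _ _ hxy) y rfl
  refine eg_of_wit h1 r1 id Function.injective_id fun p q hpq => ?_
  obtain ⟨u, v, huv, rfl, rfl⟩ := hH p q hpq
  obtain ⟨d, d1, d2⟩ := h3.cov (u, true) v huv
  have d3 : (ν d).1 = u := by rw [d1]
  exact ⟨d, by rw [r2, d3]; rfl, by rw [r3 d (by rw [d3, d2]; exact hpq.ne), r2, d2]; rfl⟩

end Pool.Agent.Lib.MP_cbe08d_co.Sf
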