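import Pool.Agent.Lib.MP_cbe08d_co.Sf.Emb0

/-! Submaps and subgraphs. -/

set_option autoImplicit false

namespace Pool.Agent.Lib.MP_cbe08d_co.Sf

open Equiv SimpleGraph Pool.Agent.Lib.MP_77dff5_pr

variable {D D' U U' V W : Type} {a g : ℕ} {o : Prop} {σ α c : Perm D} {G : SimpleGraph V}

/-- splitting off one dart -/
theorem sub_step [Finite D] [DecidableEq D] {S : Set D} (h0 : Df a σ α) {p q : D} (hp : p ∉ S)
    (hpq : p ≠ q) (hq : σ q = p) : Df a (σ * swap p q) α ∧ ncyc σ < ncyc (σ * swap p q) ∧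
      (∀ x y, (σ * swap p q).SameCycle x y → σ.SameCycle x y) ∧
      ∀ x ∈ S, ∀ y ∈ S, (σ * swap p q).SameCycle x y ↔ σ.SameCycle x y := by
  have hn := permB_not_same hpq hq
  have e1 := ncyc_mul_swap_of_not _ hn
  have e2 := euler_step α _ hn
  have e5 := sameCycle_mul_swap_of_not _ hn
  rw [mul_swap_mul_self] at e1 e2 e5
  rw [ncyc_mul_comm α, ncyc_mul_comm α, permB_ncomp_comm α, permB_ncomp_comm α] at e2
  refine ⟨by unfold Df at h0 ⊢; omega, by omega, fun x y h => (e5 x y).2 (Or.inl h),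
    fun x hx y hy => ?_⟩
  have hf : ∀ z ∈ S, ¬(σ * swap p q).SameCycle z p := fun z hz hc =>
    hp (hc.eq_of_right (by rw [Function.IsFixedPt, Perm.mul_apply, swap_apply_left, hq]) ▸ hz)
  rw [e5]
  simp [hf x hx, hf y hy]

/-- Model: `df_iso` of `Pl/Emb1.lean`. Remove `a ∉ S` (with `σ b = a`) and its mirror image `c a`
(whose predecessor is `c (σ a)`) in one step: `σ * swap a b * swap (c (σ a)) (c (σ b))`, see
`mir_swap`. Cycles only split, so `fr` is kept. -/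
theorem df_iso [Finite D] (S : Set D) (ci : Function.Involutive c) (hS : ∀ x, c x ∈ S ↔ x ∈ S)
    (σ : Perm D) (h0 : Df a σ α) (cs : ∀ x, σ (c (σ x)) = c x)
    (fr : ∀ x, ¬σ.SameCycle x (c x)) :
    ∃ τ : Perm D, Df a τ α ∧ (∀ x, τ (c (τ x)) = c x) ∧ (∀ y, y ∉ S → τ y = y) ∧
      ∀ x ∈ S, ∀ y ∈ S, τ.SameCycle x y ↔ σ.SameCycle x y := by
  classical
  induction hk : Nat.card D - ncyc σ using Nat.strong_induction_on generalizing σ with
  | _ k ih =>
    by_cases hσ : ∀ y, y ∉ S → σ y = y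
    · exact ⟨σ, h0, cs, hσ, fun _ _ _ _ => Iff.rfl⟩
    push Not at hσ
    obtain ⟨p, hp, ha⟩ := hσ
    have hq : σ (σ.symm p) = p := σ.apply_symm_apply p
    generalize σ.symm p = q at hq
    have hpq : p ≠ q := fun e => ha (by rw [e] at hq ⊢; exact hq)
    have s1 : σ.SameCycle (σ p) p := (Perm.SameCycle.refl σ p).apply_left
    have s2 : σ.SameCycle (σ p) q := s1.trans (hq ▸ (Perm.SameCycle.refl σ q).apply_left)
    obtain ⟨a1, a2, a3, a4⟩ := sub_step h0 hp hpq hq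
    obtain ⟨b1, b2, b3, b4⟩ := sub_step a1 (p := c p) (q := c (σ p)) (mt (hS p).1 hp)
      (fun e => ha (ci.injective e).symm) (by
        rw [Perm.mul_apply, swap_apply_of_ne_of_ne (x := c (σ p))
          (fun e => fr (σ p) (by rwa [e])) fun e => fr (σ p) (by rwa [e]), cs])
    have m := mir_swap ci cs p q
    rw [hq, swap_comm (c (σ p))] at m
    have e4 := permB_ncyc_le (σ * swap p q * swap (c p) (c (σ p)))
    obtain ⟨τ, t0, tc, t1, t2⟩ := ih _ (by omega) _ b1 m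
      (fun x h => fr x (a3 _ _ (b3 _ _ h))) rfl
    exact ⟨τ, t0, tc, t1, fun x hx y hy => by rw [t2 x hx y hy, b4 x hx y hy, a4 x hx y hy]⟩

theorem sub_ne {ν : D → U × Bool} (h : Mir a o σ α c ν) (x : D) : (ν (c x)).2 ≠ (ν x).2 := by
  rw [h.nc]
  exact Bool.not_ne_self _

/-- Model: `df_sub` of `Pl/Emb1.lean`. -/
theorem Mir.sub [Finite D] {ν : D → U × Bool} (h : Mir a o σ α c ν) {α' c' : Perm D'}
    {ν' : D' → U' × Bool} (j : D' ↪ D) (hj : ∀ x, j (α' x) = α (j x))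
    (hc : ∀ x, j (c' x) = c (j x)) (f : U' → U) (hf : Function.Injective f)
    (hν : ∀ x, ν (j x) = (f (ν' x).1, (ν' x).2)) : ∃ σ', Mir a o σ' α' c' ν' := by
  have := Finite.of_injective j j.injective
  have a1 : ∀ x, α'.viaEmbedding j (j x) = j (α' x) := Perm.viaEmbedding_apply α' j
  have a2 : ∀ y, y ∉ Set.range j → α'.viaEmbedding j y = y :=
    Perm.viaEmbedding_apply_of_notMem α' j
  generalize α'.viaEmbedding j = γ at a1 a2
  have e1 := permD_disj σ γ (γ⁻¹ * α) fun y => by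
    by_cases hy : y ∈ Set.range j
    · obtain ⟨x, rfl⟩ := hy
      refine Or.inr ?_
      rw [Perm.mul_apply, ← hj, ← a1, Perm.inv_eq_iff_eq]
    · exact Or.inl (a2 y hy)
  rw [mul_inv_cancel_left] at e1
  have h0 := h.df
  obtain ⟨τ, t0, tc, t1, t2⟩ := df_iso (a := a) (α := γ) (Set.range j) h.ci
    (fun x => ⟨fun ⟨y, e⟩ => ⟨c' y, by rw [hc, e, h.ci]⟩, fun ⟨y, e⟩ => ⟨c' y, by rw [hc, e]⟩⟩)
    σ (by unfold Df at h0 ⊢; omega) h.cs
    fun x e => sub_ne h x (congrArg Prod.snd ((h.rot _ _).1 e)).symm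
  have t3 : ∀ y, τ y ∈ Set.range j ↔ y ∈ Set.range j := by
    intro y
    constructor
    · intro h
      by_contra hc
      exact hc (t1 y hc ▸ h)
    · intro h
      by_contra hc
      exact hc ((τ.injective (t1 _ hc)).symm ▸ h)
  let σ' : Perm D' := (ofInjective j j.injective).symm.permCongr (τ.subtypePerm t3)
  have s1 : ∀ x, τ (j x) = j (σ' x) := fun x =>
    (apply_ofInjective_symm j.injective (τ.subtypePerm t3 (ofInjective j j.injective x))).symm
  have hν2 : ∀ x, (ν' x).2 = (ν (j x)).2 := fun x => by rw [hν]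
  refine ⟨σ', fun x y => ?_, fun x => j.injective (by rw [hj, hj, h.ai]),
    fun x => j.injective (by rw [hc, hc, h.ci]),
    fun x => j.injective (by rw [← s1, hc, ← s1, tc, hc]),
    fun x => j.injective (by rw [hc, hj, hj, hc, h.ca]), fun x => ?_, ?_,
    fun ho x => by rw [hν2, hν2, hj, h.ori ho]⟩
  · rw [permD_same j s1, t2 _ ⟨x, rfl⟩ _ ⟨y, rfl⟩, h.rot, hν, hν, Prod.mk.injEq, hf.eq_iff,
      Prod.ext_iff]
  · have e := hν (c' x)
    rw [hc, h.nc, hν, Prod.mk.injEq, hf.eq_iff] at e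
    exact Prod.ext e.1.symm e.2.symm
  · have c1 := permD_ncyc j s1 t1
    have c2 := permD_ncyc j a1 a2
    have c3 := permD_ncyc j (π := τ * γ) (π' := σ' * α')
      (fun x => by rw [Perm.mul_apply, a1, s1]; rfl) fun y hy => by
        rw [Perm.mul_apply, a2 y hy, t1 y hy]
    have c4 := permD_ncyc j (π := 1) (π' := 1) (fun _ => rfl) fun _ _ => rfl
    rw [ncyc_one, ncyc_one] at c4
    have c5 := permD_ncomp j s1 t1 a1 a2
    unfold Df at t0 ⊢
    omega

/-- Model: `eg_of_wit` of `Pl/Emb1.lean`. Darts `G.Dart × Bool`, `j (d, ε) = cond ε (c (j₀ d)) (j₀ d)`,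
`α' (d, ε) = (d.symm, ε)`, `c' (d, ε) = (d, !ε)`, `ν' x = (x.1.fst, (ν (j x)).2)`. -/
theorem eg_of_wit [Finite D] {ν : D → U × Bool} (hp : Par g a o) (h : Mir a o σ α c ν) (f : V → U)
    (hf : Function.Injective f)
    (hc : ∀ x y, G.Adj x y → ∃ d, (ν d).1 = f x ∧ (ν (α d)).1 = f y) : EG g G := by
  classical
  have hg : ∀ d : G.Dart, ∃ e, (ν e).1 = f d.fst ∧ (ν (α e)).1 = f d.snd := fun d => hc _ _ d.adj
  choose u hu1 hu2 using hg
  let _ : LinearOrder V := linearOrderOfSTO WellOrderingRel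
  obtain ⟨i, i1, i2, i3⟩ : ∃ i : G.Dart → D, (∀ d, (ν (i d)).1 = f d.fst) ∧
      (∀ d, (ν (α (i d))).1 = f d.snd) ∧ ∀ d, i d.symm = α (i d) := by
    refine ⟨fun d => if d.fst < d.snd then u d else α (u d.symm), fun d => ?_, fun d => ?_,
      fun d => ?_⟩
    · beta_reduce
      split_ifs
      · exact hu1 d
      · exact hu2 d.symm
    · beta_reduce
      split_ifs
      · exact hu2 d
      · rw [h.ai]; exact hu1 d.symm
    · rcases lt_or_gt_of_ne d.adj.ne with e | e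
      · beta_reduce
        rw [if_pos e, if_neg (by exact e.not_gt), Dart.symm_symm]
      · beta_reduce
        rw [if_neg e.not_gt, if_pos (by exact e), h.ai]
  let j : G.Dart × Bool → D := fun x => cond x.2 (c (i x.1)) (i x.1)
  have j1 : ∀ x, (ν (j x)).1 = f x.1.fst := by
    rintro ⟨d, _ | _⟩
    · exact i1 d
    · exact (congrArg Prod.fst (h.nc _)).trans (i1 d)
  have j2 : ∀ x, (ν (α (j x))).1 = f x.1.snd := by
    rintro ⟨d, _ | _⟩
    · exact i2 d
    · change (ν (α (c (i d)))).1 = _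
      rw [← h.ca, h.nc]
      exact i2 d
  have j3 : ∀ x y : G.Dart × Bool, x.1.fst = y.1.fst → x.1.snd = y.1.snd →
      (ν (j x)).2 = (ν (j y)).2 → x = y := by
    rintro ⟨d, b⟩ ⟨d', b'⟩ e1 e2 e3
    obtain rfl : d = d' := Dart.ext _ _ (Prod.ext e1 e2)
    cases b <;> cases b'
    · rfl
    · exact absurd e3.symm (sub_ne h _)
    · exact absurd e3 (sub_ne h _)
    · rfl
  have ji : Function.Injective j := fun x y e =>
    j3 x y (hf (by rw [← j1, ← j1, e])) (hf (by rw [← j2, ← j2, e])) (by rw [e])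
  obtain ⟨σ', hσ'⟩ := h.sub (α' := (rev G).prodCongr (Equiv.refl Bool)) (c' := flp G.Dart)
    (ν' := fun x => (x.1.fst, (ν (j x)).2)) ⟨j, ji⟩ (by
      rintro ⟨d, _ | _⟩
      · exact i3 d
      · exact (congrArg c (i3 d)).trans (h.ca _)) (by
      rintro ⟨d, _ | _⟩
      · rfl
      · exact (h.ci _).symm) f hf fun x => Prod.ext (j1 x) rfl
  refine ⟨_, Finite.of_injective j ji, σ', _, _, _, ⟨a, o, hp, hσ'⟩, fun x => x.1.adj,
    fun x y e1 e2 => j3 x y (Prod.mk.inj e1).1 e2 (Prod.mk.inj e1).2, fun p n hpn => ?_⟩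
  by_cases e : (ν (i ⟨(p.1, n), hpn⟩)).2 = p.2
  · exact ⟨(⟨(p.1, n), hpn⟩, false), Prod.ext rfl e, rfl⟩
  · refine ⟨(⟨(p.1, n), hpn⟩, true), Prod.ext rfl ?_, rfl⟩
    exact (congrArg Prod.snd (h.nc _)).trans (Bool.eq_not_of_ne (Ne.symm e)).symm

theorem EG.comap {H : SimpleGraph W} (h : EG g H) (f : V → W)
    (hf : Function.Injective f) (hadj : ∀ a b, G.Adj a b → H.Adj (f a) (f b)) : EG g G := by
  obtain ⟨D, _, σ, α, c, ν, ⟨a, o, h1, h2⟩, h3⟩ := h
  refine eg_of_wit h1 h2 f hf fun x y hxy => ?_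
  obtain ⟨d, d1, d2⟩ := h3.cov (f x, true) (f y) (hadj _ _ hxy)
  exact ⟨d, by rw [d1], d2⟩

theorem EG.mono {H : SimpleGraph V} (h : EG g H) (hle : G ≤ H) : EG g G :=
  h.comap id Function.injective_id fun _ _ hab => hle hab

end Pool.Agent.Lib.MP_cbe08d_co.Sf
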