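import Pool.Agent.Lib.MP_cbe08d_co.Sf.Idx
import Pool.Agent.Lib.MP_cbe08d_co.Sf.Sub

/-! Embedding schemes. -/

set_option autoImplicit false

namespace Pool.Agent.Lib.MP_cbe08d_co.Sf

open Equiv SimpleGraph Pool.Agent.Lib.MP_77dff5_pr

variable {D D' U U' V W : Type} {a g : ℕ} {o : Prop} {σ α c : Perm D} {G : SimpleGraph V}

/-- If no dart is connected to its mirror image, the sheets are named by an orientation:
`ω x = decide (mk x < mk (c x))` for a linear order on the components. -/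
theorem Mir.orient [Finite D] {ν : D → U × Bool} (h : Mir a False σ α c ν)
    (hn : ∀ x, Quot.mk (fun p q : D => q = σ p ∨ q = α p) x ≠ Quot.mk _ (c x)) :
    ∃ ω : D → Bool, Mir a True σ α c fun x => ((ν x).1, ω x) := by
  classical
  let r : D → D → Prop := fun p q => q = σ p ∨ q = α p
  let q : D → Quot r := Quot.mk r
  let e := Finite.equivFin (Quot r)
  have q1 : ∀ x, q (σ x) = q x := fun x => Eq.symm (Quot.sound (Or.inl rfl))
  have q2 : ∀ x, q (α x) = q x := fun x => Eq.symm (Quot.sound (Or.inr rfl))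
  have q3 : ∀ x, q (c (σ x)) = q (c x) := fun x => by rw [← q1, h.cs]
  have q4 : ∀ x, q (c (α x)) = q (c x) := fun x => by rw [h.ca, q2]
  let ω : D → Bool := fun x => decide (e (q x) < e (q (c x)))
  have w1 : ∀ x, ω (σ x) = ω x := fun x => by simp only [ω, q1, q3]
  have w2 : ∀ x, ω (α x) = ω x := fun x => by simp only [ω, q2, q4]
  have w3 : ∀ x, ω (c x) = !ω x := fun x => by
    have hne : e (q x) ≠ e (q (c x)) := fun he => hn x (e.injective he)
    simp only [ω, h.ci x]
    rcases lt_or_gt_of_ne hne with hl | hl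
    · simp [hl, hl.le]
    · simp [hl, hl.le]
  refine ⟨ω, fun x y => ⟨fun hxy => ?_, fun hxy => ?_⟩, h.ai, h.ci, h.cs, h.ca, fun x => ?_, h.df,
    fun _ x => w2 x⟩
  · rw [(h.rot x y).1 hxy, permA_inv ω w1 hxy]
  · obtain ⟨e1, e2⟩ : (ν x).1 = (ν y).1 ∧ ω x = ω y := Prod.ext_iff.1 hxy
    by_cases e3 : (ν x).2 = (ν y).2
    · exact (h.rot x y).2 (Prod.ext e1 e3)
    · have e4 : ν (c x) = ν y := by
        rw [h.nc]
        exact Prod.ext e1 (Bool.eq_not_of_ne (Ne.symm e3)).symm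
      have e5 := permA_inv ω w1 ((h.rot _ _).2 e4)
      rw [w3, e2] at e5
      simp at e5
  · rw [h.nc, w3]

/-- The set `{mk (d, true), mk (d, false)}` only depends on the component of `d`; so
`(K, ε) ↦ mk (K.out, ε)` is onto, and not injective if some dart is connected to its mirror image. -/
theorem sch_comp [Finite D] {σ' α' : Perm (D × Bool)} (s : D → Bool)
    (h1 : ∀ d, σ' (d, true) = (σ d, true)) (h2 : ∀ d, σ' (σ d, false) = (d, false))
    (h3 : ∀ d ε, α' (d, ε) = (α d, xor ε (s d))) :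
    ncomp σ' α' ≤ 2 * ncomp σ α ∧ ∀ d, Quot.mk (fun p q => q = σ' p ∨ q = α' p) (d, true) =
      Quot.mk _ (d, false) → ncomp σ' α' + 1 ≤ 2 * ncomp σ α := by
  let q : D × Bool → Quot fun p q => q = σ' p ∨ q = α' p := Quot.mk _
  have q1 : ∀ x, q (σ' x) = q x := fun x => Eq.symm (Quot.sound (Or.inl rfl))
  have q2 : ∀ x, q (α' x) = q x := fun x => Eq.symm (Quot.sound (Or.inr rfl))
  have key : ∀ x y : D, Relation.EqvGen (fun a b => b = σ a ∨ b = α a) x y →
      ∃ δ, ∀ ε, q (x, ε) = q (y, xor ε δ) := by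
    intro x y hxy
    induction hxy with
    | rel x y hxy =>
      rcases hxy with rfl | rfl
      · refine ⟨false, fun ε => ?_⟩
        cases ε
        · exact (congrArg q (h2 x)).symm.trans (q1 _)
        · exact (q1 _).symm.trans (congrArg q (h1 x))
      · exact ⟨s x, fun ε => (q2 _).symm.trans (congrArg q (h3 x ε))⟩
    | refl x => exact ⟨false, fun ε => by rw [Bool.xor_false]⟩
    | symm x y _ ih =>
      obtain ⟨δ, hδ⟩ := ih
      exact ⟨δ, fun ε => by rw [hδ, Bool.xor_assoc, Bool.xor_self, Bool.xor_false]⟩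
    | trans x y z _ _ ih1 ih2 =>
      obtain ⟨δ, hδ⟩ := ih1
      obtain ⟨δ', hδ'⟩ := ih2
      exact ⟨xor δ δ', fun ε => by rw [hδ, hδ', Bool.xor_assoc]⟩
  let f : (Quot fun a b : D => b = σ a ∨ b = α a) × Bool →
      Quot fun p q => q = σ' p ∨ q = α' p := fun K => q (K.1.out, K.2)
  have k2 : ∀ x : D, ∃ δ, ∀ ε, q (x, ε) = f (Quot.mk _ x, xor ε δ) := fun x =>
    key _ _ (Quot.eqvGen_exact (Quot.out_eq _).symm)
  have hs : Function.Surjective f := by
    rintro ⟨x, ε⟩
    obtain ⟨δ, hδ⟩ := k2 x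
    exact ⟨_, (hδ ε).symm⟩
  have hc : Nat.card ((Quot fun a b : D => b = σ a ∨ b = α a) × Bool) = 2 * ncomp σ α := by
    rw [Nat.card_prod, Nat.card_eq_fintype_card (α := Bool), Fintype.card_bool, mul_comm]
    rfl
  have hle := Nat.card_le_card_of_surjective f hs
  rw [← hc]
  refine ⟨hle, fun d hd => lt_of_le_of_ne hle fun e => ?_⟩
  obtain ⟨δ, hδ⟩ := k2 d
  have := (hs.bijective_of_nat_card_le e.ge).injective
    ((hδ true).symm.trans (Eq.trans hd (hδ false)))
  simp at this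

/-- `c (d, ε) = (d, !ε)`, `ν (d, ε) = (d.fst, ε)`; `ncyc σ' = 2 * support`, `ncyc α' = 2 * E`,
`card = 4 * E` (`ncyc_invol`, `emb2_*`). If some dart is connected to its mirror image take
`a = 2 * g - 2` (`euler_le` excludes `g = 0`), otherwise `a = 2 * g` and `Mir.orient`; finish with
`eg_of_wit` and `f = id`. -/
theorem eg_of_scheme [Finite V] (σ : Perm G.Dart) (s : Sym2 V → Bool)
    (σ' α' : Perm (G.Dart × Bool)) (h0 : ∀ x y, σ.SameCycle x y ↔ x.fst = y.fst)
    (h1 : ∀ d, σ' (d, true) = (σ d, true)) (h2 : ∀ d, σ' (d, false) = (σ⁻¹ d, false))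
    (h3 : ∀ d ε, α' (d, ε) = (d.symm, xor ε (s d.edge)))
    (h4 : 2 * G.edgeSet.ncard + 4 * Nat.card G.ConnectedComponent ≤
      2 * Nat.card V + (ncyc (σ' * α') + 2 * {v | ∀ w, ¬G.Adj v w}.ncard) + 2 * g) : EG g G := by
  classical
  let ν : G.Dart × Bool → V × Bool := fun x => (x.1.fst, x.2)
  have h2' : ∀ d, σ' (σ d, false) = (d, false) := fun d => by rw [h2]; simp
  have hσ : ∀ d, (σ d).fst = d.fst := fun d => (h0 _ _).1 (Perm.SameCycle.refl σ d).apply_left
  have hσ' : ∀ d, (σ⁻¹ d).fst = d.fst := fun d => by rw [← hσ]; simp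
  have rot : IsRot ν σ' := by
    rintro ⟨x, ε⟩ ⟨y, δ⟩
    refine ⟨permA_inv ν ?_, fun hxy => ?_⟩
    · rintro ⟨d, _ | _⟩
      · rw [h2]
        exact Prod.ext (hσ' d) rfl
      · rw [h1]
        exact Prod.ext (hσ d) rfl
    · obtain rfl : ε = δ := congrArg Prod.snd hxy
      have hs := (h0 x y).2 (Prod.ext_iff.1 hxy).1
      cases ε
      · exact permA_map (π := σ⁻¹) (fun d => (d, false)) (fun d => (h2 d).symm) hs.inv
      · exact permA_map (fun d => (d, true)) (fun d => (h1 d).symm) hs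
  have ai : Function.Involutive α' := by
    rintro ⟨d, ε⟩
    rw [h3, h3, Dart.symm_symm, Dart.edge_symm, Bool.xor_assoc, Bool.xor_self, Bool.xor_false]
  have mir : ∀ a, Df a σ' α' → Mir a False σ' α' (flp G.Dart) ν := fun a ha => by
    refine ⟨rot, ai, fun x => Prod.ext rfl (Bool.not_not _), ?_, ?_, fun _ => rfl, ha, False.elim⟩
    · rintro ⟨d, _ | _⟩
      · rw [h2]
        exact (h1 _).trans (Prod.ext (σ.apply_symm_apply d) rfl)
      · rw [h1]
        exact h2' d
    · rintro ⟨d, ε⟩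
      rw [h3]
      refine Eq.trans ?_ (h3 d (!ε)).symm
      exact Prod.ext rfl (Bool.not_xor _ _).symm
  have cov : ∀ x y, G.Adj x y → ∃ d : G.Dart × Bool, d.1.fst = x ∧ (α' d).1.fst = y :=
    fun x y hxy => ⟨(⟨(x, y), hxy⟩, true), rfl, by rw [h3]; rfl⟩
  have c1 : ncyc σ' = 2 * G.support.ncard := by
    have : Set.range ν = G.support ×ˢ Set.univ := by
      rw [← emb2_range, ← Set.range_id, ← Set.range_prodMap]
      rfl
    rw [ncyc_of_isRot rot, this, Set.ncard_prod, Set.ncard_univ, Nat.card_eq_fintype_card,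
      Fintype.card_bool, mul_comm]
  have c2 : Nat.card (G.Dart × Bool) = 4 * G.edgeSet.ncard := by
    rw [Nat.card_prod, emb2_card_dart, Nat.card_eq_fintype_card (α := Bool), Fintype.card_bool]
    omega
  have c3 : ncyc α' = 2 * G.edgeSet.ncard := by
    let e := Finite.equivFin V
    have := ncyc_invol ai {x | e x.1.fst < e x.1.snd} (by
      rintro ⟨d, ε⟩
      rw [h3]
      have hne : e d.fst ≠ e d.snd := fun he => d.adj.ne (e.injective he)
      change e d.snd < e d.fst ↔ ¬e d.fst < e d.snd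
      exact ⟨fun hl => not_lt.2 hl.le, fun hl => lt_of_le_of_ne (not_lt.1 hl) hne.symm⟩)
    omega
  have c4 := emb2_comps (G := G) (σ := σ) h0
  have c5 := Set.ncard_add_ncard_compl G.support
  have c6 := sch_comp (σ := σ) (α := rev G) (fun d => s d.edge) h1 h2' h3
  have c7 := euler_le σ' α'
  rw [emb2_iso] at h4
  by_cases hd : ∃ d, Quot.mk (fun p q => q = σ' p ∨ q = α' p) (d, true) = Quot.mk _ (d, false)
  · obtain ⟨d, hd⟩ := hd
    have c8 := c6.2 d hd
    exact eg_of_wit (a := 2 * g - 2) (Or.inl (by omega)) (mir _ (by unfold Df; omega)) id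
      Function.injective_id cov
  · obtain ⟨ω, hω⟩ := (mir (2 * g) (by unfold Df; omega)).orient (by
      rintro ⟨d, _ | _⟩ he
      · exact hd ⟨d, he.symm⟩
      · exact hd ⟨d, he⟩)
    exact eg_of_wit (Or.inr ⟨le_rfl, trivial⟩) hω id Function.injective_id cov

end Pool.Agent.Lib.MP_cbe08d_co.Sf
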