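import Pool.Agent.Lib.MP_cbe08d_co.Sf.Sub

/-! A new edge across a corner. -/

set_option autoImplicit false

namespace Pool.Agent.Lib.MP_cbe08d_co.Sf

open Equiv SimpleGraph Pool.Agent.Lib.MP_77dff5_pr

variable {D D' U U' V W : Type} {a g : ℕ} {o : Prop} {σ α c : Perm D} {G : SimpleGraph V}

theorem add_v1 (π : Perm D) (d : D) :
    π.viaEmbedding (Function.Embedding.inl : D ↪ D ⊕ Bool × Bool) (Sum.inl d) = Sum.inl (π d) :=
  Perm.viaEmbedding_apply π _ d

theorem add_v2 (π : Perm D) (t : Bool × Bool) :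
    π.viaEmbedding (Function.Embedding.inl : D ↪ D ⊕ Bool × Bool) (Sum.inr t) = Sum.inr t :=
  Perm.viaEmbedding_apply_of_notMem π _ _ (by rintro ⟨x, e⟩; cases e)

theorem add_ne {ν : D → U × Bool} (h : Mir a o σ α c ν) (x : D) : c x ≠ x := fun e => by
  have := congrArg Prod.snd (h.nc x)
  rw [e] at this
  simp at this

theorem add_invol [DecidableEq D] (h : Function.Involutive α) {n m : D} (hn : α n = n)
    (hm : α m = m) : Function.Involutive (α * swap n m) := fun x => by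
  have k := DFunLike.congr_fun (mul_swap_eq_swap_mul α n m) ((α * swap n m) x)
  rw [k, hn, hm, Perm.mul_apply, Perm.mul_apply, h, swap_apply_self]

/-- four new isolated darts (`Df.via`) -/
theorem Mir.ext [Finite D] {ν : D → U × Bool} (h : Mir a o σ α c ν) :
    Mir a o (σ.viaEmbedding (Function.Embedding.inl : D ↪ D ⊕ Bool × Bool))
      (α.viaEmbedding Function.Embedding.inl)
      (Equiv.sumCongr c (Equiv.prodCongr (Equiv.refl Bool) Equiv.boolNot))
      (Sum.elim (fun x => ((Sum.inl (ν x).1 : U ⊕ Bool), (ν x).2)) fun t => (Sum.inr t.1, t.2)) := by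
  refine ⟨?_, ?_, ?_, ?_, ?_, ?_, h.df.via _, ?_⟩
  · rintro (x | t) (y | s)
    · refine (permD_same Function.Embedding.inl (add_v1 σ) x y).symm.trans ((h.rot x y).trans ?_)
      simp [Prod.ext_iff]
    · exact ⟨fun k => absurd (k.eq_of_right (add_v2 σ s)) (by simp), fun k => by simp at k⟩
    · exact ⟨fun k => absurd (k.eq_of_left (add_v2 σ t)) (by simp), fun k => by simp at k⟩
    · refine ⟨fun k => by rw [k.eq_of_left (add_v2 σ t)], fun k => ?_⟩
      have : t = s := by simpa [Prod.ext_iff] using k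
      rw [this]
  · rintro (x | t)
    · rw [add_v1, add_v1, h.ai]
    · rw [add_v2, add_v2]
  · rintro (x | ⟨s, t⟩)
    · exact congrArg Sum.inl (h.ci x)
    · simp
  · rintro (x | t)
    · rw [add_v1]
      exact (add_v1 σ _).trans (congrArg Sum.inl (h.cs x))
    · rw [add_v2]
      exact add_v2 σ _
  · rintro (x | t)
    · rw [add_v1]
      exact (congrArg Sum.inl (h.ca x)).trans (add_v1 α _).symm
    · rw [add_v2]
      exact (add_v2 α _).symm
  · rintro (x | t)
    · change ((Sum.inl (ν (c x)).1 : U ⊕ Bool), (ν (c x)).2) = _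
      rw [h.nc]
      rfl
    · rfl
  · rintro ho (x | t)
    · rw [add_v1]
      exact h.ori ho x
    · rw [add_v2]

/-- The isolated dart `n` is inserted after `p`, and `c n` after `c (σ p)`: `Mir.merge`,
`Df.pendant` twice. -/
theorem Mir.ins [Finite D] [DecidableEq D] [DecidableEq U] {ν : D → U × Bool}
    (h : Mir a o σ α c ν) {p n : D} (hσ : σ n = n) (hα : α n = n) (h1 : (ν p).1 ≠ (ν n).1)
    (h2 : (ν p).2 = (ν n).2) :
    Mir a o (σ * swap p n * swap (c (σ p)) (c (σ n))) α c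
      (fun z => (if (ν z).1 = (ν n).1 then (ν p).1 else (ν z).1, (ν z).2)) := by
  obtain ⟨k1, k2, -⟩ := h.merge h1 h2 rfl
  have hpn : p ≠ n := fun e => h1 (by rw [e])
  refine ⟨k1, h.ai, h.ci, k2, h.ca, fun x => by simp only [h.nc], ?_, h.ori⟩
  refine (h.df.pendant hσ hα hpn).pendant ?_ (by rw [← h.ca, hσ, hα])
    fun e => hpn (σ.injective (c.injective e))
  have n1 : c (σ n) ≠ p := fun e => h1 (by rw [← e, h.nc, hσ])
  have n2 : c (σ n) ≠ n := hσ.symm ▸ add_ne h n
  rw [Perm.mul_apply, swap_apply_of_ne_of_ne n1 n2, h.cs, hσ]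

/-- a chord of a triangle and its mirror image (`Df.chord` twice) -/
theorem Mir.chord [Finite D] [DecidableEq D] {ν : D → U × Bool} (h : Mir a o σ α c ν) {n m : D}
    (hn : α n = n) (hm : α m = m) (h1 : (ν n).1 ≠ (ν m).1) (h2 : o → (ν n).2 = (ν m).2) {d e : D}
    (d1 : α d ≠ d) (e1 : α e ≠ e) (s1 : σ n = d) (s2 : σ (α d) = e) (s3 : σ (α e) = m) :
    Mir a o σ (α * swap n m * swap (c n) (c m)) c ν := by
  have a1 : c n ≠ n := add_ne h n
  have a2 : c m ≠ m := add_ne h m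
  have a3 : c n ≠ m := fun e => h1 (by rw [← e, h.nc])
  have a4 : c m ≠ n := fun e => h1 (by rw [← e, h.nc])
  have a5 : n ≠ m := fun e => h1 (by rw [e])
  have b1 : (α * swap n m) (c n) = c n := by
    rw [Perm.mul_apply, swap_apply_of_ne_of_ne a1 a3, ← h.ca, hn]
  have b2 : (α * swap n m) (c m) = c m := by
    rw [Perm.mul_apply, swap_apply_of_ne_of_ne a4 a2, ← h.ca, hm]
  have b3 : ∀ z, α z ≠ z → (σ * (α * swap n m)) (c (α z)) = σ (c z) := fun z hz => by
    have k : ∀ y, α y = y → c (α z) ≠ y := fun y hy e => hz (by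
      rw [← e, ← h.ca, h.ai] at hy
      exact (c.injective hy).symm)
    rw [Perm.mul_apply, Perm.mul_apply, swap_apply_of_ne_of_ne (k n hn) (k m hm), ← h.ca, h.ai]
  refine ⟨h.rot, add_invol (add_invol h.ai hn hm) b1 b2, h.ci, h.cs, fun x => ?_, h.nc, ?_,
    fun ho x => ?_⟩
  · have c1 : ∀ p q z, c (swap p q z) = swap (c p) (c q) (c z) := fun p q z =>
      DFunLike.congr_fun (mul_swap_eq_swap_mul c p q) z
    have c2 := mul_swap_eq_swap_mul (swap n m) (c n) (c m)
    rw [swap_apply_of_ne_of_ne a1 a3, swap_apply_of_ne_of_ne a4 a2] at c2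
    simp only [Perm.mul_apply]
    rw [h.ca, c1, c1, h.ci n, h.ci m]
    exact congrArg α (DFunLike.congr_fun c2 (c x)).symm
  · refine (h.df.chord hn a5 ?_).chord b1 (fun e => a5 (c.injective e)) ?_
    · have k := (Perm.SameCycle.refl (σ * α) n).apply_right.apply_right.apply_right
      simp only [Perm.mul_apply] at k
      rwa [hn, s1, s2, s3] at k
    · have k := (Perm.SameCycle.refl (σ * (α * swap n m)) (c m)).apply_right.apply_right.apply_right
      have k1 : (σ * (α * swap n m)) (c m) = c (α e) := by rw [Perm.mul_apply, b2, ← s3, h.cs]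
      have k2 : σ (c e) = c (α d) := by rw [← s2, h.cs]
      have k3 : σ (c d) = c n := by rw [← s1, h.cs]
      rw [k1, b3 e e1, k2, b3 d d1, k3] at k
      exact k.symm
  · simp only [Perm.mul_apply]
    rw [h.ori ho, apply_swap_eq_self (v := fun z => (ν z).2) (h2 ho),
      apply_swap_eq_self (v := fun z => (ν z).2) (by simp only [h.nc, h2 ho])]

theorem add_ins [Finite D] [DecidableEq D] [DecidableEq U] {ν : D → U × Bool}
    (h : Mir a o σ α c ν) {p n : D} (hσ : σ n = n) (hα : α n = n) (h1 : (ν p).1 ≠ (ν n).1)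
    (h2 : (ν p).2 = (ν n).2) : ∃ (ρ : Perm D) (ν' : D → U × Bool), Mir a o ρ α c ν' ∧ ρ p = n ∧
      ρ n = σ p ∧ (∀ z, (ν z).1 ≠ (ν p).1 → (ν z).1 ≠ (ν n).1 → ρ z = σ z) ∧ ν' n = ν p ∧
      ∀ z, (ν z).1 ≠ (ν n).1 → ν' z = ν z := by
  obtain ⟨-, -, k1, k2, -, -, k3⟩ := h.merge h1 h2 rfl
  refine ⟨_, _, h.ins hσ hα h1 h2, k1.trans hσ, k2, k3, ?_, fun z hz => ?_⟩
  · simp only [if_true, ← h2]
  · simp only [if_neg hz]

/-- If the two neighbours are equal use `edge_self_eq_bot`. Otherwise insert `n₁` after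
`σ⁻¹ (α d)` and `n₂` after `α (σ d)` (signs chosen equal to those of these darts; the actions of
the new rotations are listed in `Mir.merge`; the three vertices are different), join them by
`Mir.chord` with the darts `α d` and `σ d`, and use `eg_of_wit` with `Sum.inl`. -/
theorem ER.add [Finite D] {ν : D → V × Bool} (h : ER g G σ α c ν) (d : D) :
    EG g (G ⊔ edge (ν (α d)).1 (ν (α (σ d))).1) := by
  classical
  by_cases huw : (ν (α d)).1 = (ν (α (σ d))).1
  · rw [huw, edge_self_eq_bot, sup_bot_eq]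
    exact ⟨D, inferInstance, σ, α, c, ν, h⟩
  obtain ⟨⟨a, o, hp, hm⟩, hx⟩ := h
  have r1 : ν (σ⁻¹ (α d)) = ν (α d) := by
    rw [← rot_apply hm.rot (σ⁻¹ (α d))]
    simp
  have r2 : (ν d).1 ≠ (ν (α d)).1 := (hx.adj d).ne
  have r3 : (ν d).1 ≠ (ν (α (σ d))).1 := by
    have := (hx.adj (σ d)).ne
    rwa [rot_apply hm.rot] at this
  have r4 : ∀ z, α z ≠ z := fun z e => (hx.adj z).ne (by rw [e])
  obtain ⟨σ1, ν1, m1, -, a2, a3, a4, a5⟩ := add_ins hm.ext (p := Sum.inl (σ⁻¹ (α d)))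
    (n := Sum.inr (false, (ν (α d)).2)) (add_v2 σ _) (add_v2 α _) (by simp) (show (ν (σ⁻¹ (α d))).2 = (ν (α d)).2 by rw [r1])
  have b1 : ∀ x, ν1 (Sum.inl x) = (Sum.inl (ν x).1, (ν x).2) := fun x => a5 _ (by simp)
  have b2 : ∀ t, ν1 (Sum.inr (true, t)) = (Sum.inr true, t) := fun t => a5 _ (by simp)
  have b3 : ν1 (Sum.inr (false, (ν (α d)).2)) = (Sum.inl (ν (α d)).1, (ν (α d)).2) := by
    rw [a4, ← r1]
    rfl
  obtain ⟨σ2, ν2, m2, c1, -, c3, c4, c5⟩ := add_ins m1 (p := Sum.inl (α (σ d)))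
    (n := Sum.inr (true, (ν (α (σ d))).2)) ((a3 _ (by simp) (by simp)).trans (add_v2 σ _))
    (add_v2 α _) (by simp [b1, b2]) (by simp [b1, b2])
  have e1 : ∀ x, ν2 (Sum.inl x) = (Sum.inl (ν x).1, (ν x).2) := fun x =>
    (c5 _ (by simp [b1, b2])).trans (b1 x)
  have e2 : ν2 (Sum.inr (false, (ν (α d)).2)) = (Sum.inl (ν (α d)).1, (ν (α d)).2) :=
    (c5 _ (by simp [b2, b3])).trans b3
  have e3 := c4.trans (b1 _)
  have m3 := m2.chord (n := Sum.inr (false, (ν (α d)).2)) (m := Sum.inr (true, (ν (α (σ d))).2))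
    (add_v2 α _) (add_v2 α _) (by simp [e2, e3, huw])
    (fun ho => by rw [e2, e3, hm.ori ho, hm.ori ho, rot_apply hm.rot])
    (d := Sum.inl (α d)) (e := Sum.inl (σ d))
    (by rw [add_v1]; exact fun e => r4 _ (Sum.inl_injective e))
    (by rw [add_v1]; exact fun e => r4 _ (Sum.inl_injective e))
    (by
      rw [c3 _ (by simp [b1, b3, huw]) (by simp [b2, b3]), a2, add_v1]
      simp)
    (by
      rw [add_v1, hm.ai, c3 _ (by simp [b1, r3]) (by simp [b1, b2]),
        a3 _ (fun e => r2 (by rw [← r1]; exact Sum.inl_injective e)) (by simp), add_v1])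
    (by rw [add_v1, c1])
  refine eg_of_wit hp m3 Sum.inl Sum.inl_injective fun x y hxy => ?_
  rcases (sup_adj _ _ _ _).1 hxy with hxy | hxy
  · obtain ⟨z, z1, z2⟩ := hx.cov (x, true) y hxy
    refine ⟨Sum.inl z, by rw [e1, z1], ?_⟩
    rw [Perm.mul_apply, Perm.mul_apply, swap_apply_of_ne_of_ne (x := Sum.inl z) (by simp) (by simp),
      swap_apply_of_ne_of_ne (by simp) (by simp), add_v1, e1, z2]
  · rcases ((edge_adj _ _ _ _).1 hxy).1 with ⟨rfl, rfl⟩ | ⟨rfl, rfl⟩
    · refine ⟨_, by rw [e2], ?_⟩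
      rw [Perm.mul_apply, Perm.mul_apply,
        swap_apply_of_ne_of_ne (x := Sum.inr (false, (ν (α d)).2)) (by simp) (by simp),
        swap_apply_left, add_v2, e3]
    · refine ⟨_, by rw [e3], ?_⟩
      rw [Perm.mul_apply, Perm.mul_apply,
        swap_apply_of_ne_of_ne (x := Sum.inr (true, (ν (α (σ d))).2)) (by simp) (by simp),
        swap_apply_right, add_v2, e2]

end Pool.Agent.Lib.MP_cbe08d_co.Sf
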