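import Pool.Agent.Lib.MP_cbe08d_co.Sf.Ctr

/-! Instances: free arcs `fr` and unit arcs `h a → t a`. -/

set_option autoImplicit false

namespace Pool.Agent.Lib.MP_cbe08d_co.Sf

theorem exists_hea (g : ℕ) : ∃ j, 9 * g ≤ j * (j + 7) := ⟨9 * g, by nlinarith⟩

/-- the least `j` with `9 g ≤ j (j + 7)` -/
def hea (g : ℕ) : ℕ := Nat.find (exists_hea g)

/-- free arcs and unit arcs -/
structure Ins (A V : Type) where
  fr : V → V → Prop
  h : A → V
  t : A → V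

namespace Ins

variable {A V W K : Type} (I : Ins A V)

def le : V → V → Prop := Relation.ReflTransGen I.fr

def Ideal (X : Set V) : Prop := ∀ a b, I.fr a b → b ∈ X → a ∈ X

/-- the unit arcs that enter `X` -/
def Ent (X : Set V) : Set A := {a | I.t a ∈ X ∧ I.h a ∉ X}

/-- nontrivial ideals -/
def NT (X : Set V) : Prop := I.Ideal X ∧ X.Nonempty ∧ Xᶜ.Nonempty

/-- the underlying graph -/
def G : SimpleGraph V :=
  SimpleGraph.fromRel fun x y => I.fr x y ∨ ∃ a, I.h a = x ∧ I.t a = y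

/-- few sources and sinks -/
def Few (g : ℕ) : Prop := ∃ S T : Set V, S.Finite ∧ T.Finite ∧ S.ncard + T.ncard ≤ hea g + 8 ∧
  (∀ x, ∃ s ∈ S, I.le s x) ∧ ∀ x, ∃ u ∈ T, I.le x u

structure Hyp (g N : ℕ) : Prop where
  strong : ∀ X, I.NT X → N ≤ (I.Ent X).ncard
  loc : ∀ a, ∃ u s, I.le (I.h a) u ∧ I.le s u ∧ I.le s (I.t a)
  cl : EG g I.G ∨ I.Few g

/-- a prescribed colouring of the arcs that leave the tight filter `R` -/
structure Pre (N : ℕ) (R : Set V) (π : A → K) : Prop where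
  nt : I.NT Rᶜ
  le : (I.Ent Rᶜ).ncard ≤ N
  onto : ∀ i, ∃ a ∈ I.Ent Rᶜ, π a = i

def Ok (R : Set V) (π c : A → K) (i : K) (Y : Set V) : Prop :=
  (Disjoint R Y ∧ ∀ a ∈ I.Ent Rᶜ, π a = i → I.t a ∈ Y) ∨ ∃ a ∈ I.Ent Y, c a = i ∧ I.h a ∉ R

/-- a solution for the ideals with property `S` -/
def Sol (R : Set V) (π : A → K) (S : Set V → Prop) : Prop :=
  ∃ c : A → K, (∀ a ∈ I.Ent Rᶜ, c a = π a) ∧ ∀ i Y, I.NT Y → S Y → I.Ok R π c i Y

def EE (N : ℕ) (K : Type) : Prop :=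
  ∀ (v : V) (π : A → K), I.Pre N {v} π → I.Sol {v} π fun _ => True

def rev : Ins A V := ⟨fun x y => I.fr y x, I.t, I.h⟩

def map (f : V → W) : Ins A W :=
  ⟨fun x y => ∃ a b, I.fr a b ∧ f a = x ∧ f b = y, fun a => f (I.h a), fun a => f (I.t a)⟩

open Classical in
/-- new ends for the arc `a` -/
noncomputable def upd (a : A) (x y : V) : Ins A V :=
  ⟨I.fr, Function.update I.h a x, Function.update I.t a y⟩

noncomputable def p1 : ℕ := {a | I.h a ≠ I.t a}.ncard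

noncomputable def p2 : ℕ := {p : A × Set V | I.Ideal p.2 ∧ p.1 ∈ I.Ent p.2}.ncard

def Src (s : V) : Prop := ∀ z, I.fr z s → z = s

def Snk (u : V) : Prop := ∀ z, I.fr u z → z = u

/-- the edge `p q` can be added -/
def Add (g : ℕ) (p q : V) : Prop := EG g (I.G ⊔ SimpleGraph.edge p q) ∨ I.Few g

end Ins

def IH (g N : ℕ) (A K : Type) (n : ℕ) : Prop :=
  ∀ (V : Type) [Finite V] (I : Ins A V), Nat.card V < n → I.Hyp g N → I.EE N K

/-- a minimal counterexample -/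
structure Ctx {A V K : Type} (I : Ins A V) (g N : ℕ) (v : V) (π : A → K) : Prop where
  hyp : I.Hyp g N
  pre : I.Pre N {v} π
  pos : 0 < N
  ihV : IH g N A K (Nat.card V)
  ih1 : ∀ I' : Ins A V, I'.p1 < I.p1 → I'.Hyp g N → I'.EE N K
  ih2 : ∀ I' : Ins A V, I'.p1 ≤ I.p1 → I'.p2 < I.p2 → I'.Hyp g N → I'.EE N K
  no : ¬I.Sol {v} π fun _ => True

namespace Ins

variable {A V K : Type} {I : Ins A V} {X : Set V} {x y : V} {g N : ℕ}

theorem Ideal.le (h : I.Ideal X) (hxy : I.le x y) (hy : y ∈ X) : x ∈ X := by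
  induction hxy with
  | refl => exact hy
  | tail _ h1 ih => exact ih (h _ _ h1 hy)

theorem ideal_down (y : V) : I.Ideal {x | I.le x y} := fun _ _ h1 h2 =>
  Relation.ReflTransGen.head h1 h2

theorem Ideal.inter {Y : Set V} (h : I.Ideal X) (h' : I.Ideal Y) : I.Ideal (X ∩ Y) :=
  fun a b e hb => ⟨h a b e hb.1, h' a b e hb.2⟩

theorem Ideal.union {Y : Set V} (h : I.Ideal X) (h' : I.Ideal Y) : I.Ideal (X ∪ Y) :=
  fun a b e hb => hb.imp (h a b e) (h' a b e)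

theorem Src.eq (h : I.Src y) (hxy : I.le x y) : x = y := by
  induction hxy using Relation.ReflTransGen.head_induction_on with
  | refl => rfl
  | head h1 _ ih => exact h _ (ih ▸ h1)

theorem Snk.eq (h : I.Snk x) (hxy : I.le x y) : y = x := by
  induction hxy with
  | refl => rfl
  | tail _ h1 ih => exact h _ (ih ▸ h1)

theorem ideal_single : I.Ideal {x} ↔ I.Src x :=
  ⟨fun h z hz => h z x hz rfl, fun h a _ e hb => h a (hb ▸ e)⟩

theorem ideal_compl_single : I.Ideal {x}ᶜ ↔ I.Snk x :=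
  ⟨fun h z hz => by_contra fun hn => h x z hz hn rfl, fun h _ b e hb ha => hb (h b (ha ▸ e))⟩

theorem mem_ent_compl {a : A} : a ∈ I.Ent {x}ᶜ ↔ I.h a = x ∧ I.t a ≠ x :=
  ⟨fun h => ⟨not_not.1 h.2, h.1⟩, fun h => ⟨h.2, not_not.2 h.1⟩⟩

theorem adj_iff : I.G.Adj x y ↔ x ≠ y ∧ (I.fr x y ∨ I.fr y x ∨
    ∃ a, (I.h a = x ∧ I.t a = y) ∨ (I.h a = y ∧ I.t a = x)) := by
  rw [G, SimpleGraph.fromRel_adj, or_or_or_comm, or_assoc, exists_or]

theorem rev_le : I.rev.le x y ↔ I.le y x := Relation.reflTransGen_swap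

theorem rev_ideal : I.rev.Ideal Xᶜ ↔ I.Ideal X :=
  ⟨fun h a b e hb => by_contra fun ha => h b a e ha hb, fun h a b e hb ha => hb (h b a e ha)⟩

theorem rev_ent : I.rev.Ent Xᶜ = I.Ent X :=
  Set.ext fun _ => ⟨fun h => ⟨not_not.1 h.2, h.1⟩, fun h => ⟨h.2, not_not.2 h.1⟩⟩

theorem rev_nt : I.rev.NT Xᶜ ↔ I.NT X := by
  simp only [NT, rev_ideal, compl_compl, and_comm]

theorem rev_G : I.rev.G = I.G := by
  ext x y
  rw [adj_iff, adj_iff, or_left_comm]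
  simp only [rev, and_comm, or_comm]

theorem Hyp.rev (h : I.Hyp g N) : I.rev.Hyp g N where
  strong X hX := by
    rw [← compl_compl X] at hX ⊢
    rw [rev_ent]
    exact h.strong _ (rev_nt.1 hX)
  loc a := by
    obtain ⟨u, s, h1, h2, h3⟩ := h.loc a
    exact ⟨s, u, rev_le.2 h3, rev_le.2 h2, rev_le.2 h1⟩
  cl := h.cl.imp (fun e => rev_G (I := I) ▸ e) fun ⟨S, T, e1, e2, e3, e4, e5⟩ =>
    ⟨T, S, e2, e1, add_comm S.ncard _ ▸ e3, fun x => (e5 x).imp fun _ h => ⟨h.1, rev_le.2 h.2⟩,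
      fun x => (e4 x).imp fun _ h => ⟨h.1, rev_le.2 h.2⟩⟩

theorem Add.symm (h : I.Add g x y) : I.Add g y x := by
  rwa [Add, SimpleGraph.edge_comm]

end Ins

end Pool.Agent.Lib.MP_cbe08d_co.Sf
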