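import Pool.Agent.Lib.MP_77dff5_pr.PermD

/-! Maps with a mirror (orientable double covers of embedded graphs) of bounded Euler defect. -/

set_option autoImplicit false

namespace Pool.Agent.Lib.MP_cbe08d_co.Sf

open Equiv SimpleGraph Pool.Agent.Lib.MP_77dff5_pr

section Bas
variable {D D' V W : Type} {g : ℕ}

/-- Euler defect at most `g` -/
def Df (g : ℕ) (σ α : Perm D) : Prop :=
  Nat.card D + 2 * ncomp σ α ≤ ncyc σ + ncyc α + ncyc (σ * α) + g

instance dartFinite [Finite V] (G : SimpleGraph V) : Finite G.Dart :=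
  Finite.of_injective _ (Dart.toProd_injective (G := G))

theorem rev_invol (G : SimpleGraph V) : Function.Involutive (rev G) := Dart.symm_involutive

theorem emb1_left [Finite D] {σ α : Perm D} {x y : D} (h : σ.SameCycle x y) :
    Relation.EqvGen (fun a b => b = σ a ∨ b = α a) x y :=
  permB_sc h (fun z => Relation.EqvGen (fun a b => b = σ a ∨ b = α a) x z)
    (Relation.EqvGen.refl x) fun _ hz => hz.trans _ _ _ (Relation.EqvGen.rel _ _ (Or.inl rfl))

theorem emb1_right [Finite D] {σ α : Perm D} {x y : D} (h : α.SameCycle x y) :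
    Relation.EqvGen (fun a b => b = σ a ∨ b = α a) x y :=
  permB_sc h (fun z => Relation.EqvGen (fun a b => b = σ a ∨ b = α a) x z)
    (Relation.EqvGen.refl x) fun _ hz => hz.trans _ _ _ (Relation.EqvGen.rel _ _ (Or.inr rfl))

theorem emb1_swap [DecidableEq D] {r : D → D → Prop} {p q : D} (h : Relation.EqvGen r p q)
    (x : D) : Relation.EqvGen r x (swap p q x) := by
  by_cases h1 : x = p
  · rw [h1, swap_apply_left]
    exact h
  · by_cases h2 : x = q
    · rw [h2, swap_apply_right]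
      exact h.symm _ _
    · rw [swap_apply_of_ne_of_ne h1 h2]
      exact Relation.EqvGen.refl x

theorem emb1_merge [Finite D] [DecidableEq D] {π : Perm D} {a b : D} (h : ¬π.SameCycle a b)
    (x : D) : (π * swap a b).SameCycle x (π x) :=
  (sameCycle_mul_swap_of_not π h x (π x)).2
    (Or.inl (Perm.sameCycle_apply_right.2 Perm.SameCycle.rfl))

theorem Df.contract [Finite D] [DecidableEq D] {σ α : Perm D} (h : Df g σ α) {p q : D}
    (hp : α p = q) (hq : α q = p) (hs : ¬σ.SameCycle p q) :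
    Df g (σ * swap p q) (α * swap p q) := by
  have hpq : p ≠ q := fun e => hs (e.sameCycle σ)
  have e1 := ncyc_mul_swap_of_not σ hs
  have e2 := ncyc_mul_swap_of_same α (a := p) (b := q)
    (by rw [← hp]; exact Perm.sameCycle_apply_right.2 Perm.SameCycle.rfl) hpq
  have hm : σ * swap p q * (α * swap p q) = σ * α := by
    rw [mul_swap_eq_swap_mul α, hp, hq, swap_comm q p, mul_assoc, swap_mul_self_mul]
  have hpq' : Relation.EqvGen (fun a b => b = (σ * swap p q) a ∨ b = (α * swap p q) a) p q :=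
    emb1_left (permA_sameCycle_swap σ hs).symm
  have e3 : ncomp (σ * swap p q) (α * swap p q) ≤ ncomp σ α :=
    permB_ncomp_le (fun x => emb1_left (emb1_merge hs x))
      fun x => (emb1_swap hpq' x).trans _ _ _ (Relation.EqvGen.rel _ _
        (Or.inr (by rw [Perm.mul_apply, swap_apply_self])))
  unfold Df at h ⊢
  rw [hm]
  omega

end Bas

section Loc
variable {D D' : Type} [Finite D] {g : ℕ} {σ α : Perm D}

omit [Finite D] in
theorem emb2_not_same {π : Perm D} {p q : D} (hp : π p = p) (hpq : p ≠ q) : ¬π.SameCycle p q :=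
  fun h => hpq (h.eq_of_left hp)

theorem Df.via [Finite D'] (h : Df g σ α) (j : D ↪ D') :
    Df g (σ.viaEmbedding j) (α.viaEmbedding j) := by
  have key : ∀ π : Perm D,
      ncyc (π.viaEmbedding j) = ncyc π + Nat.card {y // y ∉ Set.range j} := fun π =>
    permD_ncyc j (fun x => Perm.viaEmbedding_apply π j x)
      fun y hy => Perm.viaEmbedding_apply_of_notMem π j y hy
  have hm : σ.viaEmbedding j * α.viaEmbedding j = (σ * α).viaEmbedding j :=
    (map_mul (Perm.viaEmbeddingHom j) σ α).symm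
  have h1 : Nat.card D' = Nat.card D + Nat.card {y // y ∉ Set.range j} := by
    have := permD_ncyc (π := 1) (π' := 1) j (fun _ => rfl) fun _ _ => rfl
    rwa [ncyc_one, ncyc_one] at this
  have h2 : ncomp (σ.viaEmbedding j) (α.viaEmbedding j) ≤
      ncomp σ α + Nat.card {y // y ∉ Set.range j} := by
    unfold ncomp
    rw [← Nat.card_sum]
    refine Nat.card_le_card_of_surjective
      (Sum.elim (Quot.lift (fun x => Quot.mk _ (j x)) ?_) fun y => Quot.mk _ y.1) ?_
    · rintro a _ (rfl | rfl)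
      · exact Quot.sound (Or.inl (Perm.viaEmbedding_apply σ j a).symm)
      · exact Quot.sound (Or.inr (Perm.viaEmbedding_apply α j a).symm)
    · rintro ⟨y⟩
      by_cases hy : y ∈ Set.range j
      · obtain ⟨x, rfl⟩ := hy
        exact ⟨Sum.inl (Quot.mk _ x), rfl⟩
      · exact ⟨Sum.inr ⟨y, hy⟩, rfl⟩
  unfold Df at h ⊢
  rw [hm, key, key, key]
  omega

theorem Df.pendant [DecidableEq D] (h : Df g σ α) {a p : D} (hσ : σ p = p) (hα : α p = p)
    (hap : a ≠ p) : Df g (σ * swap a p) α := by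
  have n1 : ¬σ.SameCycle a p := fun hc => emb2_not_same hσ hap.symm hc.symm
  have e1 := ncyc_mul_swap_of_not σ n1
  have hp' : α⁻¹ p = p := by rw [Perm.inv_eq_iff_eq, hα]
  have hm : σ * swap a p * α = σ * α * swap (α⁻¹ a) p := by
    rw [mul_assoc, mul_assoc, swap_mul_eq_mul_swap, hp']
  have hne : p ≠ α⁻¹ a := fun e => hap (by rw [← hα, e]; simp)
  have n2 : ¬(σ * α).SameCycle (α⁻¹ a) p := fun hc =>
    emb2_not_same (by rw [Perm.mul_apply, hα, hσ]) hne hc.symm
  have e2 := ncyc_mul_swap_of_not (σ * α) n2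
  have e3 : ncomp (σ * swap a p) α < ncomp σ α := by
    unfold ncomp
    let f : (Quot fun x y : D => y = σ x ∨ y = α x) →
        (Quot fun x y : D => y = (σ * swap a p) x ∨ y = α x) :=
      Quot.lift (Quot.mk _) (by
        rintro x _ (rfl | rfl)
        · exact Quot.eqvGen_sound (emb1_left (emb1_merge n1 x))
        · exact Quot.sound (Or.inr rfl))
    have hs : Function.Surjective f := by
      rintro ⟨x⟩
      exact ⟨Quot.mk _ x, rfl⟩
    refine lt_of_le_of_ne (Nat.card_le_card_of_surjective f hs) fun e => ?_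
    have hb := hs.bijective_of_nat_card_le e.ge
    have q1 : f (Quot.mk _ a) = f (Quot.mk _ p) :=
      Quot.sound (Or.inl (by rw [Perm.mul_apply, swap_apply_left, hσ]))
    have q2 : (Quot.mk (fun x y : D => y = σ x ∨ y = α x) a) = Quot.mk _ p :=
      Function.Injective.eq_iff hb.injective |>.1 q1
    let g : (Quot fun x y : D => y = σ x ∨ y = α x) → Prop :=
      Quot.lift (fun x => x = p) (by
        rintro x _ (rfl | rfl)
        · exact propext ⟨fun e => by rw [e, hσ], fun e => σ.injective (e.trans hσ.symm)⟩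
        · exact propext ⟨fun e => by rw [e, hα], fun e => α.injective (e.trans hα.symm)⟩)
    have q3 : (a = p) = (p = p) := congrArg g q2
    exact hap (q3.mpr rfl)
  unfold Df at h ⊢
  rw [hm]
  omega

theorem Df.chord [DecidableEq D] (h : Df g σ α) {p q : D} (hp : α p = p) (hpq : p ≠ q)
    (hf : (σ * α).SameCycle p q) : Df g σ (α * swap p q) := by
  have n1 := emb2_not_same hp hpq
  have e1 := ncyc_mul_swap_of_not α n1
  have e2 := ncyc_mul_swap_of_same (σ * α) hf hpq
  have e3 : ncomp σ (α * swap p q) ≤ ncomp σ α :=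
    permB_ncomp_le (fun x => Relation.EqvGen.rel _ _ (Or.inl rfl))
      fun x => emb1_right (emb1_merge n1 x)
  unfold Df at h ⊢
  rw [← mul_assoc]
  omega

end Loc

section Gr
variable {V : Type} [Finite V] {G : SimpleGraph V} {σ : Perm G.Dart}

omit [Finite V] in
theorem emb2_range (G : SimpleGraph V) : Set.range (fun d : G.Dart => d.fst) = G.support := by
  ext v
  constructor
  · rintro ⟨d, rfl⟩
    exact ⟨d.snd, d.adj⟩
  · rintro ⟨w, h⟩
    exact ⟨⟨(v, w), h⟩, rfl⟩

omit [Finite V] in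
theorem emb2_iso (G : SimpleGraph V) : {v | ∀ w, ¬G.Adj v w} = G.supportᶜ := by
  ext v
  exact ⟨fun h ⟨w, hw⟩ => h w hw, fun h w hw => h ⟨w, hw⟩⟩

omit [Finite V] in
theorem emb2_ncyc_rev (G : SimpleGraph V) : ncyc (rev G) = G.edgeSet.ncard := by
  refine permA_ncyc_eq (fun d : G.Dart => (⟨d.edge, d.edge_mem⟩ : G.edgeSet)) ?_ fun x y =>
    ⟨permA_inv (fun d : G.Dart => (⟨d.edge, d.edge_mem⟩ : G.edgeSet))
      fun d => Subtype.ext d.edge_symm, fun h => ?_⟩
  · rintro ⟨e, he⟩
    induction e using Sym2.ind with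
    | h a b => exact ⟨⟨(a, b), he⟩, rfl⟩
  · rcases (dart_edge_eq_iff _ _).1 (congrArg Subtype.val h) with e | e
    · rw [e]
    · rw [e]
      exact (Perm.SameCycle.refl (rev G) y).apply_left

theorem emb2_card_dart (G : SimpleGraph V) :
    Nat.card G.Dart = 2 * G.edgeSet.ncard := by
  classical
  have := Fintype.ofFinite V
  rw [Nat.card_eq_fintype_card, dart_card_eq_twice_card_edges, ← coe_edgeFinset,
    Set.ncard_coe_finset]

omit [Finite V] in
theorem emb2_eq_of_reach {u v : V} (hu : u ∉ G.support)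
    (h : G.Reachable u v) : u = v := by
  obtain ⟨p⟩ := h
  cases p with
  | nil => rfl
  | cons h _ => exact absurd ⟨_, h⟩ hu

theorem emb2_comps
    (h : IsRot (fun d : G.Dart => d.fst) σ) :
    Nat.card G.ConnectedComponent = ncomp σ (rev G) + G.supportᶜ.ncard := by
  have hσ : ∀ d : G.Dart, (σ d).fst = d.fst := fun d =>
    (h _ _).1 (Perm.SameCycle.refl σ d).apply_left
  let q : G.Dart → Quot fun a b : G.Dart => b = σ a ∨ b = rev G a := Quot.mk _
  have q0 : ∀ d e : G.Dart, e = σ d ∨ e = rev G d → q d = q e := fun d e hde => Quot.sound hde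
  have q1 : ∀ d e : G.Dart, d.fst = e.fst → q d = q e := fun d e hde =>
    permA_inv q (fun x => (q0 _ _ (Or.inl rfl)).symm) ((h d e).2 hde)
  have q2 : ∀ (u v : V) (p : G.Walk u v) (d e : G.Dart), d.fst = u → e.fst = v → q d = q e := by
    intro u v p
    induction p with
    | nil => exact fun d e h1 h2 => q1 d e (h1.trans h2.symm)
    | @cons a b c hab _ ih =>
      intro d e h1 h2
      exact (q1 d ⟨(a, b), hab⟩ h1).trans
        ((q0 _ _ (Or.inr rfl)).trans (ih (rev G ⟨(a, b), hab⟩) e rfl h2))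
  unfold ncomp
  rw [← Nat.card_coe_set_eq, ← Nat.card_sum]
  refine (Nat.card_eq_of_bijective (Sum.elim
    (Quot.lift (fun d : G.Dart => G.connectedComponentMk d.fst) ?_)
    fun v : ↥G.supportᶜ => G.connectedComponentMk v.1) ⟨?_, ?_⟩).symm
  · rintro a _ (rfl | rfl)
    · exact congrArg _ (hσ a).symm
    · exact ConnectedComponent.sound a.adj.reachable
  · rintro (⟨⟨d⟩⟩ | u) (⟨⟨e⟩⟩ | v) huv
    · obtain ⟨p⟩ := ConnectedComponent.exact (v := d.fst) (w := e.fst) huv
      exact congrArg Sum.inl (q2 _ _ p d e rfl rfl)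
    · have := emb2_eq_of_reach v.2 (ConnectedComponent.exact (v := d.fst) (w := v.1) huv).symm
      exact absurd (this ▸ (⟨d.snd, d.adj⟩ : d.fst ∈ G.support)) v.2
    · have := emb2_eq_of_reach u.2 (ConnectedComponent.exact (v := u.1) (w := e.fst) huv)
      exact absurd (this ▸ (⟨e.snd, e.adj⟩ : e.fst ∈ G.support)) u.2
    · exact congrArg Sum.inr (Subtype.ext (emb2_eq_of_reach u.2 (ConnectedComponent.exact huv)))
  · rintro ⟨v⟩
    by_cases hv : v ∈ G.support
    · obtain ⟨w, hw⟩ := hv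
      exact ⟨Sum.inl (q ⟨(v, w), hw⟩), rfl⟩
    · exact ⟨Sum.inr ⟨v, hv⟩, rfl⟩

end Gr

theorem ncomp_pos {D : Type} [Finite D] [Nonempty D] (σ α : Perm D) : 1 ≤ ncomp σ α := by
  have : Nonempty (Quot fun a b : D => b = σ a ∨ b = α a) := ⟨Quot.mk _ (Classical.arbitrary _)⟩
  exact Nat.card_pos

theorem chain {D : Type} [Finite D] (τ : Perm D) (p : D → Prop) (d0 : D)
    (hu : ∀ d, τ.SameCycle d d0 → p d → ¬p (τ d) → d = d0) (d : D) (hd : τ.SameCycle d d0)
    (hp : p d) : Relation.ReflTransGen (fun a b => p a ∧ p b ∧ b = τ a) d d0 := by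
  obtain ⟨n, hn⟩ := hd.exists_nat_pow_eq
  induction n generalizing d with
  | zero =>
    rw [← hn]
    exact Relation.ReflTransGen.refl
  | succ n ih =>
    by_cases h : p (τ d)
    · refine Relation.ReflTransGen.head ⟨hp, h, rfl⟩ (ih (τ d) hd.apply_left h ?_)
      rw [← Perm.mul_apply, ← pow_succ, hn]
    · rw [hu d hd hp h]

theorem exists_corner {D : Type} [Finite D] (τ : Perm D) (p : D → Prop) {d e : D}
    (h : τ.SameCycle d e) (hd : p d) (he : ¬p e) : ∃ z, τ.SameCycle d z ∧ p z ∧ ¬p (τ z) := by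
  by_contra hno
  push Not at hno
  exact he (permB_sc h (fun z => τ.SameCycle d z ∧ p z) ⟨Perm.SameCycle.rfl, hd⟩
    fun z hz => ⟨hz.1.apply_right, hno z hz.1 hz.2⟩).2

section Mirror
variable {D U V : Type} {a g : ℕ} {o : Prop} {σ α c : Perm D} {ν : D → U × Bool}

/-- a map with a mirror `c`; `o` says that the two sheets are not connected -/
structure Mir (a : ℕ) (o : Prop) (σ α c : Perm D) (ν : D → U × Bool) : Prop where
  rot : IsRot ν σ
  ai : Function.Involutive α
  ci : Function.Involutive c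
  cs : ∀ x, σ (c (σ x)) = c x
  ca : ∀ x, c (α x) = α (c x)
  nc : ∀ x, ν (c x) = ((ν x).1, !(ν x).2)
  df : Df a σ α
  ori : o → ∀ x, (ν (α x)).2 = (ν x).2

/-- the map is a double cover of `G` -/
structure Ex (G : SimpleGraph V) (α : Perm D) (ν : D → V × Bool) : Prop where
  adj : ∀ d, G.Adj (ν d).1 (ν (α d)).1
  inj : ∀ x y, ν x = ν y → (ν (α x)).1 = (ν (α y)).1 → x = y
  cov : ∀ (p : V × Bool) n, G.Adj p.1 n → ∃ d, ν d = p ∧ (ν (α d)).1 = n

def Par (g a : ℕ) (o : Prop) : Prop := a + 2 ≤ 2 * g ∨ (a ≤ 2 * g ∧ o)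

/-- an embedding of `G` of Euler genus at most `g` -/
def ER (g : ℕ) (G : SimpleGraph V) (σ α c : Perm D) (ν : D → V × Bool) : Prop :=
  (∃ a o, Par g a o ∧ Mir a o σ α c ν) ∧ Ex G α ν

/-- `G` has Euler genus at most `g` -/
def EG (g : ℕ) (G : SimpleGraph V) : Prop :=
  ∃ (D : Type) (_ : Finite D) (σ α c : Perm D) (ν : D → V × Bool), ER g G σ α c ν

theorem rot_apply {L : Type} {μ : D → L} (h : IsRot μ σ) (x : D) : μ (σ x) = μ x :=
  (h _ _).1 (Perm.SameCycle.refl σ x).apply_left

/-- two mirror transpositions keep the symmetry -/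
theorem mir_swap [DecidableEq D] (ci : Function.Involutive c) (cs : ∀ x, σ (c (σ x)) = c x)
    (p q x : D) : (σ * swap p q * swap (c (σ p)) (c (σ q)))
      (c ((σ * swap p q * swap (c (σ p)) (c (σ q))) x)) = c x := by
  have h1 : ∀ z, c (σ (swap p q z)) = swap (c (σ p)) (c (σ q)) (c (σ z)) := fun z =>
    DFunLike.congr_fun (mul_swap_eq_swap_mul (c * σ) p q) z
  have h2 : ∀ z, c (σ (swap (c (σ p)) (c (σ q)) z)) = swap p q (c (σ z)) := fun z => by
    have := DFunLike.congr_fun (mul_swap_eq_swap_mul (c * σ) (c (σ p)) (c (σ q))) z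
    simpa only [Perm.mul_apply, cs, ci p, ci q] using this
  simp only [Perm.mul_apply, h1, h2, swap_apply_self, cs]

theorem rot_merge [Finite D] [DecidableEq D] {L : Type} [DecidableEq L] {μ : D → L}
    (h : IsRot μ σ) {p q : D} (hpq : μ p ≠ μ q) :
    IsRot (fun z => if μ z = μ q then μ p else μ z) (σ * swap p q) := fun x y => by
  rw [sameCycle_mul_swap_of_not σ (mt (h p q).1 hpq), h, h, h, h, h]
  by_cases h1 : μ x = μ q <;> by_cases h2 : μ y = μ q <;> simp [h1, h2, hpq.symm, eq_comm]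
  exact fun e => absurd e.symm h2

/-- merging two vertices, on both sheets -/
theorem Mir.merge [Finite D] [DecidableEq D] [DecidableEq U] (h : Mir a o σ α c ν) {p q : D}
    (h1 : (ν p).1 ≠ (ν q).1) (h2 : (ν p).2 = (ν q).2) {ρ : Perm D}
    (hρ : ρ = σ * swap p q * swap (c (σ p)) (c (σ q))) :
    IsRot (fun z => (if (ν z).1 = (ν q).1 then (ν p).1 else (ν z).1, (ν z).2)) ρ ∧
      (∀ x, ρ (c (ρ x)) = c x) ∧ ρ p = σ q ∧ ρ q = σ p ∧ ρ (c (σ p)) = c q ∧ ρ (c (σ q)) = c p ∧
      ∀ z, (ν z).1 ≠ (ν p).1 → (ν z).1 ≠ (ν q).1 → ρ z = σ z := by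
  subst hρ
  have l1 : ∀ x, ν (c (σ x)) = ((ν x).1, !(ν x).2) := fun x => by rw [h.nc, rot_apply h.rot]
  have n1 : ∀ x y, (ν x).2 = (ν y).2 → x ≠ c (σ y) := fun x y e e' => by
    have := congrArg Prod.snd (l1 y)
    rw [← e', e] at this
    simp at this
  have r1 := rot_merge h.rot (p := p) (q := q) fun e => h1 (congrArg Prod.fst e)
  have r2 := rot_merge r1 (p := c (σ p)) (q := c (σ q)) (by
    simp [l1, Prod.ext_iff, h1, h2])
  refine ⟨?_, mir_swap h.ci h.cs p q, ?_, ?_, ?_, ?_, fun z z1 z2 => ?_⟩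
  · convert r2 using 2 with z
    simp only [l1, Prod.ext_iff]
    by_cases e1 : (ν z).1 = (ν q).1 <;> by_cases e2 : (ν z).2 = (ν q).2 <;>
      simp [e1, e2, h1, h2]
    simp [Bool.eq_not_of_ne e2]
  · rw [Perm.mul_apply, Perm.mul_apply, swap_apply_of_ne_of_ne (n1 _ _ rfl) (n1 _ _ h2),
      swap_apply_left]
  · rw [Perm.mul_apply, Perm.mul_apply, swap_apply_of_ne_of_ne (n1 _ _ h2.symm) (n1 _ _ rfl),
      swap_apply_right]
  · rw [Perm.mul_apply, Perm.mul_apply, swap_apply_left,
      swap_apply_of_ne_of_ne (n1 _ _ h2).symm (n1 _ _ rfl).symm, h.cs]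
  · rw [Perm.mul_apply, Perm.mul_apply, swap_apply_right,
      swap_apply_of_ne_of_ne (n1 _ _ rfl).symm (n1 _ _ h2.symm).symm, h.cs]
  · rw [Perm.mul_apply, Perm.mul_apply,
      swap_apply_of_ne_of_ne (x := z) (fun e => z1 (by rw [e, l1])) fun e => z2 (by rw [e, l1]),
      swap_apply_of_ne_of_ne (x := z) (fun e => z1 (by rw [e])) fun e => z2 (by rw [e])]

end Mirror

end Pool.Agent.Lib.MP_cbe08d_co.Sf
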