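import Pool.Agent.Lib.MP_cbe08d_co.Sf.Main

/-! Digraphs: one instance for each weak component. -/

set_option autoImplicit false

namespace Pool.Agent.Lib.MP_cbe08d_co.Sf

open Ins

theorem dijoins {V A : Type} [Finite V] [Finite A] {g k : ℕ} (hk : 0 < k) (tail head : A → V)
    (J : Set A) (hG : EG g (SimpleGraph.fromRel fun x y => ∃ a, tail a = x ∧ head a = y))
    (hJ : ∀ S : Set V, (∀ a, head a ∈ S → tail a ∈ S) → (∃ a, tail a ∈ S ∧ head a ∉ S) →
      (hea g + 9) * (k - 1) < {a | a ∈ J ∧ tail a ∈ S ∧ head a ∉ S}.ncard) :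
    ∃ c : A → Fin k, ∀ (i : Fin k) (S : Set V), (∀ a, head a ∈ S → tail a ∈ S) →
      (∃ a, tail a ∈ S ∧ head a ∉ S) → ∃ a, a ∈ J ∧ c a = i ∧ tail a ∈ S ∧ head a ∉ S := by
  classical
  set G := SimpleGraph.fromRel fun x y => ∃ a, tail a = x ∧ head a = y with hGd
  have ht : ∀ a, G.connectedComponentMk (tail a) = G.connectedComponentMk (head a) := fun a => by
    by_cases e : tail a = head a
    · rw [e]
    · exact SimpleGraph.ConnectedComponent.connectedComponentMk_eq_of_adj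
        ((SimpleGraph.fromRel_adj _ _ _).2 ⟨e, Or.inl ⟨a, rfl, rfl⟩⟩)
  have : Nonempty (Fin k) := ⟨⟨0, hk⟩⟩
  suffices H : ∀ Q : G.ConnectedComponent, ∃ c : A → Fin k, ∀ (i : Fin k) (S : Set V),
      (∀ a, head a ∈ S → tail a ∈ S) →
      (∃ a, G.connectedComponentMk (tail a) = Q ∧ tail a ∈ S ∧ head a ∉ S) →
      ∃ a, G.connectedComponentMk (tail a) = Q ∧ a ∈ J ∧ c a = i ∧ tail a ∈ S ∧ head a ∉ S by
    choose c hc using H
    refine ⟨fun a => c (G.connectedComponentMk (tail a)) a, fun i S hS ⟨a, ha⟩ => ?_⟩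
    obtain ⟨b, b1, b2, b3, b4⟩ := hc _ i S hS ⟨a, rfl, ha⟩
    exact ⟨b, b2, by simpa only [b1] using b3, b4⟩
  intro Q
  obtain ⟨x0, hx0⟩ := Q.exists_rep
  let W := {x // G.connectedComponentMk x = Q}
  let P : A → Prop := fun a => a ∈ J ∧ G.connectedComponentMk (tail a) = Q
  let I : Ins A W := ⟨fun x y => ∃ a, tail a = x.1 ∧ head a = y.1,
    fun a => if h : P a then ⟨head a, (ht a).symm.trans h.2⟩ else ⟨x0, hx0⟩,
    fun a => if h : P a then ⟨tail a, h.2⟩ else ⟨x0, hx0⟩⟩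
  have arc : ∀ a, I.h a = I.t a ∨ (P a ∧ (I.h a).1 = head a ∧ (I.t a).1 = tail a) := fun a => by
    by_cases h : P a
    · exact Or.inr ⟨h, by simp only [I, dif_pos h], by simp only [I, dif_pos h]⟩
    · exact Or.inl (by simp only [I, dif_neg h])
  have hI : I.Hyp g ((hea g + 9) * (k - 1) + 1) := by
    refine ⟨fun X hX => ?_, fun a => ?_, Or.inl (hG.comap Subtype.val Subtype.val_injective ?_)⟩
    · have cl : ∀ a, head a ∈ Subtype.val '' X → tail a ∈ Subtype.val '' X := by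
        rintro a ⟨y, hy, e⟩
        exact ⟨⟨tail a, (ht a).trans (e ▸ y.2)⟩, hX.1 _ y ⟨a, rfl, e.symm⟩ hy, rfl⟩
      refine (hJ _ cl ?_).trans_le (Set.ncard_le_ncard ?_)
      · by_contra hn
        obtain ⟨x, hx⟩ := hX.2.1
        obtain ⟨y, hy⟩ := hX.2.2
        have key : ∀ z, Relation.ReflTransGen G.Adj x.1 z → z ∈ Subtype.val '' X := fun z hz => by
          induction hz with
          | refl => exact ⟨x, hx, rfl⟩
          | tail _ h ih =>
            obtain ⟨-, ⟨a, rfl, rfl⟩ | ⟨a, rfl, rfl⟩⟩ := (SimpleGraph.fromRel_adj _ _ _).1 h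
            · exact by_contra fun e => hn ⟨a, ih, e⟩
            · exact cl a ih
        obtain ⟨z, hz, e⟩ := key y.1 ((SimpleGraph.reachable_iff_reflTransGen _ _).1
          (SimpleGraph.ConnectedComponent.exact (x.2.trans y.2.symm)))
        exact hy (Subtype.ext e ▸ hz)
      · rintro a ⟨a1, ⟨x, hx, e⟩, a3⟩
        have h : P a := ⟨a1, e ▸ x.2⟩
        simp only [Ent, I, dif_pos h, Set.mem_ofPred_eq]
        exact ⟨by simpa only [← e] using hx, fun h' => a3 ⟨_, h', rfl⟩⟩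
    · obtain e | ⟨-, e1, e2⟩ := arc a
      · exact ⟨_, _, .refl, .refl, e ▸ .refl⟩
      · exact ⟨_, _, .refl, .single ⟨a, e2.symm, e1.symm⟩, .refl⟩
    · intro x y h
      obtain ⟨h1, h2⟩ := adj_iff.1 h
      refine (SimpleGraph.fromRel_adj _ _ _).2 ⟨Subtype.val_injective.ne h1, ?_⟩
      obtain h | h | ⟨a, ⟨rfl, rfl⟩ | ⟨rfl, rfl⟩⟩ := h2
      · exact Or.inl h
      · exact Or.inr h
      · exact Or.inr ⟨a, ((arc a).resolve_left h1).2.2.symm, ((arc a).resolve_left h1).2.1.symm⟩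
      · exact Or.inl ⟨a, ((arc a).resolve_left h1.symm).2.2.symm,
          ((arc a).resolve_left h1.symm).2.1.symm⟩
  obtain ⟨c, hc⟩ := plain (K := Fin k) (fun N' h => main (by rwa [Nat.card_fin]) _) hI (by
    obtain ⟨j, rfl⟩ := Nat.exists_eq_add_of_lt hk
    rw [Nat.card_fin, Nat.add_sub_cancel]
    nlinarith [Nat.zero_le (hea g * j)])
  refine ⟨c, fun i S hS ⟨a, a1, a2, a3⟩ => ?_⟩
  obtain ⟨b, ⟨b1, b2⟩, b3⟩ := hc i (Subtype.val ⁻¹' S) ⟨fun x y ⟨e, e1, e2⟩ hy =>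
    show x.1 ∈ S from e1 ▸ hS e (e2 ▸ hy), ⟨⟨_, a1⟩, a2⟩, ⟨⟨_, (ht a).symm.trans a1⟩, a3⟩⟩
  obtain ⟨p, e1, e2⟩ := (arc b).resolve_left fun e => b2 (e ▸ b1)
  exact ⟨b, p.2, p.1, b3, e2 ▸ b1, e1 ▸ b2⟩

end Pool.Agent.Lib.MP_cbe08d_co.Sf
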