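import Pool.Agent.Lib.MP_cbe08d_co.Sf.Emb0

/-! The index inequality and the edge bound. -/

set_option autoImplicit false

namespace Pool.Agent.Lib.MP_cbe08d_co.Sf

open Equiv SimpleGraph Pool.Agent.Lib.MP_77dff5_pr

variable {D D' U U' V W : Type} {a g : ℕ} {o : Prop} {σ α c : Perm D} {G : SimpleGraph V}

theorem ncyc_invol [Finite D] (hα : Function.Involutive α) (L : Set D)
    (hL : ∀ d, α d ∈ L ↔ d ∉ L) : ncyc α = L.ncard ∧ Nat.card D = 2 * L.ncard := by
  classical
  constructor
  · rw [← Nat.card_coe_set_eq]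
    let f : D → L := fun d => if h : d ∈ L then ⟨d, h⟩ else ⟨α d, (hL d).2 h⟩
    have f1 : ∀ x, α.SameCycle x (f x) := fun x => by
      by_cases h : x ∈ L
      · rw [show f x = ⟨x, h⟩ from dif_pos h]
      · rw [show f x = ⟨α x, (hL x).2 h⟩ from dif_neg h]
        exact (Perm.SameCycle.refl α x).apply_right
    refine permA_ncyc_eq f (fun x => ⟨x, dif_pos x.2⟩) fun x y =>
      ⟨permA_inv f fun z => ?_, fun h => (f1 x).trans (h ▸ (f1 y).symm)⟩
    by_cases h : z ∈ L
    · have h' : α z ∉ L := fun e => (hL z).1 e h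
      rw [show f z = ⟨z, h⟩ from dif_pos h, show f (α z) = ⟨α (α z), (hL _).2 h'⟩ from dif_neg h']
      exact Subtype.ext (hα z)
    · rw [show f z = ⟨α z, (hL z).2 h⟩ from dif_neg h,
        show f (α z) = ⟨α z, (hL z).2 h⟩ from dif_pos ((hL z).2 h)]
  · have e : α '' L = Lᶜ := by
      ext d
      constructor
      · rintro ⟨x, hx, rfl⟩ hd
        exact (hL x).1 hd hx
      · exact fun hd => ⟨α d, (hL d).2 hd, hα d⟩
    rw [← Set.ncard_add_ncard_compl L, ← e, Set.ncard_image_of_injective _ α.injective, two_mul]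

theorem Mir.two_le [Finite D] [Nonempty D] {ν : D → U × Bool} (h : Mir a o σ α c ν) (ho : o) :
    2 ≤ ncomp σ α := by
  have hb : Nat.card Bool = 2 := by simp
  rw [← hb]
  refine Nat.card_le_card_of_surjective (Quot.lift (fun x => (ν x).2) ?_) fun b => ?_
  · rintro x _ (rfl | rfl)
    · rw [rot_apply h.rot]
    · exact (h.ori ho x).symm
  · obtain ⟨d⟩ := ‹Nonempty D›
    by_cases e : (ν d).2 = b
    · exact ⟨Quot.mk _ d, e⟩
    · refine ⟨Quot.mk _ (c d), ?_⟩
      change (ν (c d)).2 = b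
      rw [h.nc]
      exact (Bool.eq_not_of_ne (Ne.symm e)).symm

theorem Mir.ncyc_le [Finite D] [Finite U] {ν : D → U × Bool} (h : Mir a o σ α c ν) :
    ncyc σ ≤ 2 * Nat.card U := by
  rw [ncyc_of_isRot h.rot]
  refine (Set.ncard_le_card _).trans_eq ?_
  rw [Nat.card_prod, mul_comm]
  simp

theorem idx_half {ν : D → V × Bool} (hα : Function.Involutive α) (hx : Ex G α ν) {β : Type}
    [LinearOrder β] (r : V → β) (hr : Function.Injective r) (d : D) :
    α d ∈ {d | r (ν (α d)).1 < r (ν d).1} ↔ d ∉ {d | r (ν (α d)).1 < r (ν d).1} := by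
  change r (ν (α (α d))).1 < r (ν (α d)).1 ↔ ¬r (ν (α d)).1 < r (ν d).1
  rw [hα, not_lt]
  exact ⟨le_of_lt, fun h => lt_of_le_of_ne h fun e => (hx.adj d).ne (hr e)⟩

/-- the component of an isolated edge -/
theorem idx_comp (hα : Function.Involutive α) {d x : D} (b1 : σ d = d) (b2 : σ (α d) = α d)
    (h : Quot.mk (fun a b : D => b = σ a ∨ b = α a) d = Quot.mk _ x) : x = d ∨ x = α d := by
  have inv : ∀ x y : D, y = σ x ∨ y = α x → (x = d ∨ x = α d) = (y = d ∨ y = α d) := by
    rintro x _ (rfl | rfl)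
    · refine propext ⟨?_, ?_⟩
      · rintro (rfl | rfl)
        · exact Or.inl b1
        · exact Or.inr b2
      · exact fun hx => hx.imp (fun e => σ.injective (e.trans b1.symm))
          fun e => σ.injective (e.trans b2.symm)
    · refine propext ⟨?_, ?_⟩
      · rintro (rfl | rfl)
        · exact Or.inr rfl
        · exact Or.inl (hα _)
      · rintro (e | e)
        · exact Or.inr (by rw [← e, hα x])
        · exact Or.inl (α.injective e)
  have e : (d = d ∨ d = α d) = (x = d ∨ x = α d) :=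
    congrArg (Quot.lift (fun z => z = d ∨ z = α d) inv) h
  exact e.mp (Or.inl rfl)

/-- Model: `ER.index` of `Pl/Emb2.lean`; `Par` gives the constant. -/
theorem ER.index [Finite D] [Finite V] [Nonempty D] {ν : D → V × Bool} (h : ER g G σ α c ν)
    {β : Type} [LinearOrder β] (r : V → β) (hr : Function.Injective r) :
    {d | r (ν (α d)).1 < r (ν d).1 ∧ r (ν d).1 < r (ν (α (σ d))).1}.ncard + 4 ≤
      2 * Nat.card V + 2 * g := by
  obtain ⟨⟨a, o, hp, hm⟩, hx⟩ := h
  set L : Set D := {d | r (ν (α d)).1 < r (ν d).1} with hL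
  have hne : ∀ d, r (ν d).1 ≠ r (ν (α d)).1 := fun d e => (hx.adj d).ne (hr e)
  obtain ⟨h0, h1⟩ := ncyc_invol hm.ai L (idx_half hm.ai hx r hr)
  have h2 : {d | d ∈ L ∧ σ d ∈ L}.ncard +
      {d | r (ν (α d)).1 < r (ν d).1 ∧ r (ν d).1 < r (ν (α (σ d))).1}.ncard = L.ncard := by
    rw [← Set.ncard_union_eq (Set.disjoint_left.2 fun d h1 h2 =>
      lt_asymm (show r (ν (α (σ d))).1 < r (ν (σ d)).1 from h1.2)
        (by rw [rot_apply hm.rot]; exact h2.2))]
    congr 1
    ext d
    constructor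
    · rintro (hd | hd)
      · exact hd.1
      · exact hd.1
    · intro hd
      rcases lt_or_gt_of_ne (hne (σ d)) with e | e
      · exact Or.inr ⟨hd, by rwa [rot_apply hm.rot] at e⟩
      · exact Or.inl ⟨hd, e⟩
  have h3 : ncyc (σ * α) ≤ {d | d ∈ L ∧ σ d ∈ L}.ncard := by
    rw [← Nat.card_coe_set_eq]
    refine Nat.card_le_card_of_surjective (fun d : {d | d ∈ L ∧ σ d ∈ L} =>
      Quotient.mk (Perm.SameCycle.setoid (σ * α)) (σ d.1)) fun u => ?_
    induction u using Quotient.inductionOn with | _ x => ?_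
    obtain ⟨e, he, hmax⟩ := Set.exists_max_image {e | (σ * α).SameCycle x e}
      (fun e => r (ν e).1) (Set.toFinite _) ⟨x, Perm.SameCycle.refl _ _⟩
    obtain ⟨e', rfl⟩ := (σ * α).surjective e
    have k1 : r (ν e').1 ≤ r (ν (σ (α e'))).1 := hmax e' (Perm.SameCycle.of_apply_right he)
    have k2 : r (ν (σ (α (σ (α e'))))).1 ≤ r (ν (σ (α e'))).1 :=
      hmax _ (Perm.SameCycle.apply_right he)
    rw [rot_apply hm.rot] at k1 k2
    refine ⟨⟨α e', ?_, lt_of_le_of_ne k2 (hne _).symm⟩, Quotient.sound (Perm.SameCycle.symm he)⟩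
    change r (ν (α (α e'))).1 < _
    rw [hm.ai]
    exact lt_of_le_of_ne k1 (hne e')
  have h4 := hm.df
  have h5 := ncomp_pos σ α
  have h6 := hm.ncyc_le
  unfold Df at h4
  rcases hp with hp | ⟨hp, ho⟩
  · omega
  · have := hm.two_le ho
    omega

/-- Model: `EG.darts` of `Pl/Emb2.lean` (same `Q`, `3 F ≤ card D + card Q`, `card Q ≤ ncomp`).
If `Q` is empty use `Par`. Otherwise `σ d = d`, `σ (α d) = α d` for some `d`, the same holds for
`c d`, and either `card D ≤ 4` or `3 ≤ ncomp σ α`. -/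
theorem ER.darts [Finite D] [Finite V] {ν : D → V × Bool} (h : ER g G σ α c ν)
    (hV : 3 ≤ Nat.card V) : Nat.card D + 24 ≤ 12 * Nat.card V + 12 * g := by
  obtain ⟨⟨a, o, hp, hm⟩, hx⟩ := h
  rcases isEmpty_or_nonempty D with hD | hD
  · rw [Nat.card_of_isEmpty]
    omega
  obtain ⟨h0, h1⟩ := ncyc_invol hm.ai _
    (idx_half hm.ai hx (Finite.equivFin V) (Finite.equivFin V).injective)
  have hw : ∀ d, ν ((σ * α) d) = ν (α d) := fun d => rot_apply hm.rot _
  have n1 : ∀ d, (σ * α) d ≠ d := fun d e => (hx.adj d).ne (by rw [← hw, e])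
  have n2 : ∀ d, (σ * α) ((σ * α) d) = d → σ d = d ∧ σ (α d) = α d := by
    intro d e
    have e1 : (σ * α) d = α d := hx.inj _ _ (hw d) (by rw [← hw, e, hm.ai])
    refine ⟨?_, e1⟩
    rwa [e1, Perm.mul_apply, hm.ai d] at e
  let Q := {q : Quot fun a b : D => b = σ a ∨ b = α a //
    ∃ d, (σ * α) ((σ * α) d) = d ∧ Quot.mk _ d = q}
  have h3 : 3 * ncyc (σ * α) ≤ Nat.card D + Nat.card Q := by
    set φ := σ * α with hφ
    have hc : Nat.card (Fin 3 × Quotient (Perm.SameCycle.setoid φ)) = 3 * ncyc φ := by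
      rw [Nat.card_prod, Nat.card_fin]; rfl
    rw [← hc, ← Nat.card_sum]
    classical
    refine Nat.card_le_card_of_injective (fun p => if c : p.1 = 2 ∧ φ (φ p.2.out) = p.2.out then
      Sum.inr ⟨Quot.mk _ p.2.out, _, c.2, rfl⟩ else Sum.inl ((φ ^ (p.1 : ℕ)) p.2.out)) ?_
    rintro ⟨i, u⟩ ⟨j, u'⟩ e
    simp only at e
    split_ifs at e with a1 a2 a2
    · obtain ⟨b1, b2⟩ := n2 _ a1.2
      refine Prod.ext (a1.1.trans a2.1.symm) ?_
      change u = u'
      rw [← u.out_eq, ← u'.out_eq]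
      refine Quotient.sound ?_
      rcases idx_comp hm.ai b1 b2 (congrArg Subtype.val (Sum.inr_injective e)) with e2 | e2
      · rw [e2]
      · rw [e2, ← b2]
        exact (Perm.SameCycle.refl φ u.out).apply_right
    · have e' : (φ ^ (i : ℕ)) u.out = (φ ^ (j : ℕ)) u'.out := Sum.inl_injective e
      have hu : u = u' := by
        rw [← u.out_eq, ← u'.out_eq]
        have s1 : φ.SameCycle u.out ((φ ^ (i : ℕ)) u.out) :=
          Perm.sameCycle_pow_right.2 Perm.SameCycle.rfl
        have s2 : φ.SameCycle u'.out ((φ ^ (j : ℕ)) u'.out) :=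
          Perm.sameCycle_pow_right.2 Perm.SameCycle.rfl
        exact Quotient.sound (s1.trans (e' ▸ s2.symm))
      subst hu
      congr 1
      fin_cases i <;> fin_cases j <;> simp only [pow_succ', pow_zero, mul_one, Perm.mul_apply,
        Perm.one_apply] at e' <;> first
        | rfl
        | exact absurd e' (n1 _)
        | exact absurd e'.symm (n1 _)
        | exact absurd ⟨rfl, e'⟩ a1
        | exact absurd ⟨rfl, e'.symm⟩ a2
  have h4 := hm.df
  have h5 := ncomp_pos σ α
  have h6 : Nat.card Q ≤ ncomp σ α :=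
    Nat.card_le_card_of_injective Subtype.val Subtype.val_injective
  have h7 := hm.ncyc_le
  unfold Df at h4
  rcases isEmpty_or_nonempty Q with hQ | ⟨⟨_, d, hd, -⟩⟩
  · rw [Nat.card_of_isEmpty (α := Q)] at h3
    rcases hp with hp | ⟨hp, ho⟩
    · omega
    · have := hm.two_le ho
      omega
  have ha : a ≤ 2 * g := by
    rcases hp with hp | hp
    · omega
    · exact hp.1
  obtain ⟨b1, b2⟩ := n2 d hd
  have b3 : σ (c d) = c d := by
    have := hm.cs d
    rwa [b1] at this
  have b4 : σ (α (c d)) = α (c d) := by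
    have := hm.cs (α d)
    rwa [b2, hm.ca] at this
  by_cases h8 : ∀ x, x ∈ ({d, α d, c d, α (c d)} : Set D)
  · have h9 : Nat.card D ≤ 4 := by
      rw [← Set.ncard_univ]
      refine le_trans (Set.ncard_le_ncard fun x _ => h8 x) ?_
      refine (Set.ncard_insert_le _ _).trans (Nat.succ_le_succ ?_)
      refine (Set.ncard_insert_le _ _).trans (Nat.succ_le_succ ?_)
      exact (Set.ncard_insert_le _ _).trans_eq (by rw [Set.ncard_singleton])
    omega
  · obtain ⟨x, hx'⟩ := not_forall.1 h8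
    simp only [Set.mem_insert_iff, Set.mem_singleton_iff, not_or] at hx'
    have h9 : 2 < ncomp σ α := by
      rw [ncomp, ← Set.ncard_univ]
      refine (Set.two_lt_ncard_iff (Set.toFinite _)).2 ⟨Quot.mk _ d, Quot.mk _ (c d), Quot.mk _ x,
        trivial, trivial, trivial, fun e => ?_, fun e => ?_, fun e => ?_⟩
      · rcases idx_comp hm.ai b1 b2 e with e | e
        · have := congrArg Prod.snd (hm.nc d)
          rw [e] at this
          simp at this
        · have := congrArg Prod.fst (hm.nc d)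
          rw [e] at this
          exact (hx.adj d).ne this.symm
      · exact (idx_comp hm.ai b1 b2 e).elim hx'.1 hx'.2.1
      · exact (idx_comp hm.ai b3 b4 e).elim hx'.2.2.1 hx'.2.2.2
    omega

/-- `Ex.cov` gives an injection of `G.Dart × Bool` into `D`. -/
theorem EG.darts [Finite V] (h : EG g G) (hV : 3 ≤ Nat.card V) :
    Nat.card G.Dart + 12 ≤ 6 * Nat.card V + 6 * g := by
  obtain ⟨D, _, σ, α, c, ν, h⟩ := h
  have h1 := h.darts hV
  choose j h2 h3 using fun p : G.Dart × Bool => h.2.cov (p.1.fst, p.2) p.1.snd p.1.adj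
  have h4 : Nat.card (G.Dart × Bool) ≤ Nat.card D := by
    refine Nat.card_le_card_of_injective j fun p q e => ?_
    have e1 := h2 p
    have e2 := h3 p
    rw [e, h2] at e1
    rw [e, h3] at e2
    exact Prod.ext (Dart.ext _ _ (Prod.ext (congrArg Prod.fst e1).symm e2.symm))
      (congrArg Prod.snd e1).symm
  have hb : Nat.card Bool = 2 := by simp
  rw [Nat.card_prod, hb] at h4
  omega

end Pool.Agent.Lib.MP_cbe08d_co.Sf
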