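import Pool.Agent.Lib.MP_cbe08d_co.Sf.Red
import Pool.Agent.Lib.MP_cbe08d_co.Sf.Add
import Pool.Agent.Lib.MP_cbe08d_co.Sf.Sch

/-! The counting argument and the induction. -/

set_option autoImplicit false

namespace Pool.Agent.Lib.MP_cbe08d_co.Sf

open Ins

variable {A V K : Type} [Finite V] [Finite A] {I : Ins A V} {g N : ℕ} {v : V} {π : A → K}

theorem Ctx.rank (C : Ctx I g N v π) : ∃ r : V → ℕ ×ₗ ℕ, Function.Injective r ∧
    ∀ m, ¬I.Src m → ¬I.Snk m → ∀ n, (I.Low m n → r n < r m) ∧ (I.High m n → r m < r n) := by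
  classical
  obtain ⟨e, he⟩ := Countable.exists_injective_nat V
  let dn : V → ℕ := fun x => {w | I.le w x}.ncard
  have d1 : ∀ x, 0 < dn x := fun x => (Set.ncard_pos (Set.toFinite _)).2 ⟨x, .refl⟩
  have d2 : ∀ x, dn x ≤ Nat.card V := fun x => Set.ncard_le_card _
  have d3 : ∀ x y, I.fr x y → x ≠ y → dn x < dn y := fun x y h hne =>
    Set.ncard_lt_ncard ⟨fun w hw => Relation.ReflTransGen.tail hw h,
      fun hs => hne (C.anti (.single h) (hs Relation.ReflTransGen.refl))⟩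
  let key : V → ℕ := fun x => if I.Src x then 0 else if I.Snk x then Nat.card V + 1 else dn x
  have lt : ∀ x y, key x < key y → toLex (key x, e x) < toLex (key y, e y) := fun x y h =>
    Prod.Lex.toLex_lt_toLex.2 (Or.inl h)
  refine ⟨fun x => toLex (key x, e x), fun x y h => he (congrArg (fun z => (ofLex z).2) h),
    fun m h1 h2 n => ⟨fun ⟨hn, h⟩ => lt _ _ ?_, fun ⟨hn, h⟩ => lt _ _ ?_⟩⟩
  · have := d1 m
    by_cases s : I.Src n
    · simpa only [key, s, h1, h2, if_true, if_false]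
    obtain h | ⟨a, rfl, rfl⟩ := h
    · have t : ¬I.Snk n := fun t => hn (t m h).symm
      simpa only [key, s, t, h1, h2, if_false] using d3 _ _ h hn
    · exact ((C.hub hn.symm).elim s h2).elim
  · have := d2 m
    by_cases t : I.Snk n
    · have s : ¬I.Src n := fun s => C.not_both s t
      simpa only [key, s, t, h1, h2, if_true, if_false, Nat.lt_succ_iff]
    obtain h | ⟨a, rfl, rfl⟩ := h
    · have s : ¬I.Src n := fun s => hn (s m h).symm
      simpa only [key, s, t, h1, h2, if_false] using d3 _ _ h hn.symm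
    · exact ((C.hub hn).elim h1 t).elim

omit [Finite V] [Finite A] in
theorem Ctx.arc (C : Ctx I g N v π) : ∃ a, I.h a ≠ I.t a := by
  obtain ⟨a, a1, a2⟩ := Set.nonempty_of_ncard_ne_zero
    (C.pos.trans_le (C.hyp.strong _ C.pre.nt)).ne'
  exact ⟨a, fun e => a2 (e ▸ a1)⟩

omit [Finite V] [Finite A] in
theorem adj_lh {m n : V} : I.G.Adj m n ↔ I.Low m n ∨ I.High m n := by
  rw [adj_iff, Low, High, ← and_or_left, ne_comm, exists_or, or_or_or_comm, or_assoc,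
    or_left_comm]

omit [Finite V] [Finite A] in
/-- a block of consecutive neighbours -/
theorem blk_chain {D : Type} [Finite D] {τ : Equiv.Perm D} {s : D → V} {P : V → Prop} {d0 : D}
    (hA : ∀ d, I.Add g (s d) (s (τ d)))
    (hu : ∀ d, τ.SameCycle d d0 → P (s d) → ¬P (s (τ d)) → d = d0) {d : D}
    (hd : τ.SameCycle d d0) (hP : P (s d)) :
    Relation.ReflTransGen (fun p q => P p ∧ P q ∧ I.Add g p q) (s d) (s d0) :=
  Relation.ReflTransGen.lift (r := fun a b => P (s a) ∧ P (s b) ∧ b = τ a) s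
    (fun a _ h => ⟨h.1, h.2.1, h.2.2 ▸ hA a⟩) _ _ (chain τ (fun d => P (s d)) d0 hu d hd hP)

/-- the saddles -/
theorem Ctx.saddles (C : Ctx I g N v π) (h : EG g I.G) : ∃ W : Set V,
    W.ncard + 2 ≤ 2 * ({x | I.Src x}.ncard + {x | I.Snk x}.ncard) + g ∧
      {x | I.Src x} ∪ {x | I.Snk x} ⊆ W ∧ ∀ a, I.h a ≠ I.t a → I.h a ∈ W ∧ I.t a ∈ W := by
  obtain ⟨D, _, σ, α, c, ν, hσ⟩ := h
  obtain ⟨⟨_, _, -, hm⟩, hx⟩ := id hσ
  obtain ⟨r, hr, hl⟩ := C.rank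
  obtain ⟨a0, ha0⟩ := C.arc
  have : Nonempty D := ⟨(hx.cov (_, true) _
    (adj_iff.2 ⟨ha0, Or.inr (Or.inr ⟨a0, Or.inl ⟨rfl, rfl⟩⟩)⟩)).choose⟩
  have hi := hσ.index r hr
  set Cn := {d | r (ν (α d)).1 < r (ν d).1 ∧ r (ν d).1 < r (ν (α (σ d))).1} with hCn
  set M := {x | ¬I.Src x ∧ ¬I.Snk x} with hM
  have low : ∀ m ∈ M, ∀ n, I.G.Adj m n → (¬I.Low m n ↔ I.High m n) := fun m hm n hn =>
    ⟨(adj_lh.1 hn).resolve_left, fun h1 h2 =>
      lt_asymm ((hl m hm.1 hm.2 n).1 h2) ((hl m hm.1 hm.2 n).2 h1)⟩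
  have ad' : ∀ d, I.G.Adj (ν d).1 (ν (α (σ d))).1 := fun d => rot_apply hm.rot d ▸ hx.adj (σ d)
  have cn : ∀ d, (ν d).1 ∈ M → I.Low (ν d).1 (ν (α d)).1 → ¬I.Low (ν d).1 (ν (α (σ d))).1 →
      d ∈ Cn := fun d hd h1 h2 =>
    ⟨(hl _ hd.1 hd.2 _).1 h1, (hl _ hd.1 hd.2 _).2 ((low _ hd _ (ad' d)).1 h2)⟩
  have ex : ∀ p : V × Bool, ∃ d, p.1 ∈ M → d ∈ Cn ∧ ν d = p := fun p => by
    by_cases hp : p.1 ∈ M
    · have h1 := hp.1
      have h2 := hp.2
      simp only [Src, Snk, not_forall] at h1 h2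
      obtain ⟨x, x1, x2⟩ := h1
      obtain ⟨y, y1, y2⟩ := h2
      have lx : I.Low p.1 x := ⟨x2, Or.inl x1⟩
      have ly : I.High p.1 y := ⟨y2, Or.inl y1⟩
      obtain ⟨d, d1, rfl⟩ := hx.cov p x (adj_lh.2 (Or.inl lx))
      obtain ⟨e, e1, rfl⟩ := hx.cov p y (adj_lh.2 (Or.inr ly))
      obtain ⟨z, z1, z2, z3⟩ := exists_corner σ (fun d => I.Low p.1 (ν (α d)).1)
        ((hm.rot _ _).2 (d1.trans e1.symm)) lx ((low _ hp _ (adj_lh.2 (Or.inr ly))).2 ly)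
      obtain rfl : ν z = p := ((hm.rot _ _).1 z1).symm.trans d1
      exact ⟨z, fun _ => ⟨cn z hp z2 z3, rfl⟩⟩
    · exact ⟨Classical.arbitrary _, fun h => absurd h hp⟩
  choose F hF using ex
  have two : ∀ S : Set V, (S ×ˢ (Set.univ : Set Bool)).ncard = 2 * S.ncard := fun S => by
    rw [Set.ncard_prod, Set.ncard_univ, Nat.card_eq_fintype_card, Fintype.card_bool, mul_comm]
  have c1 : (F '' M ×ˢ Set.univ).ncard = 2 * M.ncard :=
    (Set.InjOn.ncard_image fun x hx y hy e => by rw [← (hF x hx.1).2, e, (hF y hy.1).2]).trans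
      (two M)
  have c2 := Set.ncard_sdiff_add_ncard_of_subset (s := F '' M ×ˢ Set.univ) (t := Cn)
    (by rintro _ ⟨x, hx, rfl⟩; exact (hF x hx.1).1)
  set S := {m | ∀ ε, (m, ε) ∈ ν '' (Cn \ F '' M ×ˢ Set.univ)} with hS
  have c3 : 2 * S.ncard ≤ (Cn \ F '' M ×ˢ Set.univ).ncard :=
    (two S).symm.trans_le ((Set.ncard_le_ncard fun p hp => hp.1 p.2).trans Set.ncard_image_le)
  have c4 : Nat.card V ≤ ({x | I.Src x} ∪ {x | I.Snk x}).ncard + M.ncard := by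
    rw [← Set.ncard_univ]
    refine le_trans (Set.ncard_le_ncard fun x _ => ?_) (Set.ncard_union_le _ _)
    exact (em _).imp_right not_or.1
  have c5 := Set.ncard_union_le {x | I.Src x} {x | I.Snk x}
  have c6 := Set.ncard_union_le ({x | I.Src x} ∪ {x | I.Snk x}) S
  refine ⟨_, (Nat.add_le_add_right c6 2).trans (by omega), Set.subset_union_left, fun a ha => ?_⟩
  suffices H : ∀ m, m ∉ {x | I.Src x} ∪ {x | I.Snk x} ∪ S → I.h a ≠ m ∧ I.t a ≠ m from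
    ⟨by_contra fun e => (H _ e).1 rfl, by_contra fun e => (H _ e).2 rfl⟩
  intro m h1
  obtain ⟨h1, h2⟩ := not_or.1 h1
  replace h1 : m ∈ M := not_or.1 h1
  obtain ⟨ε, h2⟩ := not_forall.1 h2
  have f1 := (hF (m, ε) h1).2
  have u : ∀ d, σ.SameCycle d (F (m, ε)) → I.Low m (ν (α d)).1 → ¬I.Low m (ν (α (σ d))).1 →
      d = F (m, ε) := fun d e h3 h4 => by
    have e' := ((hm.rot _ _).1 e).trans f1
    obtain rfl : (ν d).1 = m := congrArg Prod.fst e'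
    exact by_contra fun hd => h2 ⟨d, ⟨cn d h1 h3 h4, fun ⟨x, x1, x2⟩ =>
      hd (by rw [← e', ← x2, (hF x x1.1).2])⟩, e'⟩
  have ad : ∀ d, I.Add g (ν (α d)).1 (ν (α (σ d))).1 := fun d => Or.inl (hσ.add d)
  refine C.clean h1.1 h1.2 ⟨_, _, (ad (F (m, ε))).symm, fun n hn => ?_, fun n hn => ?_⟩ ha
  · obtain ⟨d, d1, rfl⟩ := hx.cov (m, ε) n (adj_lh.2 (Or.inl hn))
    exact blk_chain (s := fun d => (ν (α d)).1) ad u ((hm.rot _ _).2 (d1.trans f1.symm)) hn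
  · obtain ⟨d, d1, rfl⟩ := hx.cov (m, ε) n (adj_lh.2 (Or.inr hn))
    refine blk_chain (s := fun d => (ν (α d)).1) (τ := σ⁻¹)
      (fun d => by simpa using (ad (σ⁻¹ d)).symm) (fun d e h3 h4 => ?_)
      (Equiv.Perm.sameCycle_inv.2 ((hm.rot _ _).2 (d1.trans f1.symm)).apply_right) hn
    obtain ⟨d, rfl⟩ := σ.surjective d
    rw [Equiv.Perm.inv_def, σ.symm_apply_apply] at h4
    have e1 := (Equiv.Perm.sameCycle_inv.1 e).of_apply_left.of_apply_right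
    obtain rfl : (ν d).1 = m := congrArg Prod.fst (((hm.rot _ _).1 e1).trans f1)
    exact congrArg σ (u d e1 (not_not.1 (mt (low _ h1 _ (hx.adj d)).1 h4))
      ((low _ h1 _ (ad' d)).2 h3))

omit [Finite V] in
theorem fib_ge (U : Set A) (f : A → V) (S : Set V) (n : ℕ)
    (h : ∀ s ∈ S, n ≤ {a | a ∈ U ∧ f a = s}.ncard) : n * S.ncard ≤ U.ncard := by
  classical
  rcases S.finite_or_infinite with hS | hS
  swap
  · simp [hS.ncard]
  have := Finset.mul_card_image_le_card_of_maps_to (f := f) (t := hS.toFinset)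
    (s := (Set.toFinite {a | a ∈ U ∧ f a ∈ S}).toFinset) (fun a ha => by simp_all) n
    fun b hb => by
      have hb' : b ∈ S := by simpa using hb
      refine (h b hb').trans_eq ?_
      rw [← Set.ncard_coe_finset]
      congr 1
      ext a
      simp only [Set.mem_ofPred_eq, Finset.coe_filter, Set.Finite.mem_toFinset]
      exact ⟨fun e => ⟨⟨e.1, e.2 ▸ hb'⟩, e.2⟩, fun e => ⟨e.1.1, e.2⟩⟩
  rw [← Set.ncard_eq_toFinset_card _ hS, ← Set.ncard_eq_toFinset_card] at this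
  exact this.trans (Set.ncard_le_ncard fun a ha => ha.1)

theorem fib_le {B : Type} [Finite B] (U : Set A) (f : A → B) (S : Set B) (n : ℕ)
    (hm : ∀ a ∈ U, f a ∈ S) (h : ∀ s, {a | a ∈ U ∧ f a = s}.ncard ≤ n) :
    U.ncard ≤ n * S.ncard := by
  classical
  have := Finset.card_le_mul_card_image_of_maps_to (f := f) (t := (Set.toFinite S).toFinset)
    (s := (Set.toFinite U).toFinset) (fun a ha => by simpa using hm a (by simpa using ha)) n
    fun b _ => by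
      rw [← Set.ncard_coe_finset]
      simpa using h b
  rwa [← Set.ncard_eq_toFinset_card, ← Set.ncard_eq_toFinset_card] at this

theorem Ctx.deg (C : Ctx I g N v π) : N * ({x | I.Src x}.ncard + {x | I.Snk x}.ncard) ≤
    {a | (I.h a ≠ I.t a ∧ I.h a ≠ v) ∧ I.Src (I.t a)}.ncard +
      {a | (I.h a ≠ I.t a ∧ I.h a ≠ v) ∧ I.Snk (I.h a)}.ncard + 2 * N := by
  have h1 := fib_ge {a | I.h a ≠ I.t a ∧ I.Src (I.t a)} I.t {x | I.Src x} N fun s hs =>
    (C.hyp.strong {s} ⟨ideal_single.2 hs, Set.singleton_nonempty s, v,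
      fun e => C.not_both hs (e ▸ C.snk)⟩).trans (Set.ncard_le_ncard fun a ha =>
        ⟨⟨fun e => ha.2 (e ▸ ha.1), ha.1 ▸ hs⟩, ha.1⟩)
  have h2 := fib_ge {a | (I.h a ≠ I.t a ∧ I.h a ≠ v) ∧ I.Snk (I.h a)} I.h ({x | I.Snk x} \ {v}) N
    fun u hu => (C.hyp.strong {u}ᶜ ⟨ideal_compl_single.2 hu.1, ⟨v, Ne.symm hu.2⟩, u,
      not_not.2 rfl⟩).trans (Set.ncard_le_ncard fun a ha => by
        obtain ⟨rfl, e⟩ := mem_ent_compl.1 ha
        exact ⟨⟨⟨e.symm, hu.2⟩, hu.1⟩, rfl⟩)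
  have h3 := Set.ncard_sdiff_singleton_add_one (s := {x | I.Snk x}) C.snk
  have h4 : {a | I.h a ≠ I.t a ∧ I.Src (I.t a)}.ncard ≤
      {a | (I.h a ≠ I.t a ∧ I.h a ≠ v) ∧ I.Src (I.t a)}.ncard + N := by
    refine le_trans (le_trans (Set.ncard_le_ncard fun a ha => ?_) (Set.ncard_union_le _ _))
      (Nat.add_le_add_left C.pre.le _)
    by_cases e : I.h a = v
    · exact Or.inr (mem_ent_compl.2 ⟨e, fun e' => ha.1 (e.trans e'.symm)⟩)
    · exact Or.inl ⟨⟨ha.1, e⟩, ha.2⟩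
  rw [← h3]
  nlinarith

omit [Finite A] in
theorem pairs_le {G : SimpleGraph V} (h : EG g G) (W : Set V) (hW : 3 ≤ W.ncard) :
    {p : V × V | G.Adj p.1 p.2 ∧ p.1 ∈ W ∧ p.2 ∈ W}.ncard + 12 ≤ 6 * W.ncard + 6 * g := by
  refine le_trans (Nat.add_le_add_right ?_ _) ((h.comap (G := G.induce W) Subtype.val
    Subtype.val_injective fun _ _ h => h).darts hW)
  rw [← Set.ncard_univ]
  refine le_trans (Set.ncard_le_ncard ?_)
    (Set.ncard_image_le (f := fun d : (G.induce W).Dart => (d.fst.1, d.snd.1)))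
  exact fun p hp => ⟨⟨(⟨_, hp.2.1⟩, ⟨_, hp.2.2⟩), hp.1⟩, trivial, rfl⟩

omit [Finite A] in
theorem pairs_mixed (G : SimpleGraph V) {H W : Set V} (h : H ⊆ W) :
    2 * {p : V × V | G.Adj p.1 p.2 ∧ p.1 ∈ W ∧ p.2 ∈ H}.ncard ≤
      {p : V × V | G.Adj p.1 p.2 ∧ p.1 ∈ W ∧ p.2 ∈ W}.ncard +
        {p : V × V | G.Adj p.1 p.2 ∧ p.1 ∈ H ∧ p.2 ∈ H}.ncard := by
  have e := Set.ncard_union_add_ncard_inter {p : V × V | G.Adj p.1 p.2 ∧ p.1 ∈ W ∧ p.2 ∈ H}
    (Prod.swap '' {p : V × V | G.Adj p.1 p.2 ∧ p.1 ∈ W ∧ p.2 ∈ H})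
  rw [Set.ncard_image_of_injective _ Prod.swap_injective] at e
  rw [two_mul, ← e]
  refine Nat.add_le_add (Set.ncard_le_ncard ?_) (Set.ncard_le_ncard ?_)
  · rintro p (hp | ⟨q, hq, rfl⟩)
    · exact ⟨hp.1, hp.2.1, h hp.2.2⟩
    · exact ⟨hq.1.symm, h hq.2.2, hq.2.1⟩
  · rintro p ⟨hp, q, hq, rfl⟩
    exact ⟨hp.1, hq.2.2, hp.2.2⟩

/-- the count of the arcs by the pairs that carry them -/
theorem Ctx.count [Finite K] [Nonempty K] (C : Ctx I g N v π) {W : Set V}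
    (w2 : ∀ a, I.h a ≠ I.t a → I.h a ∈ W ∧ I.t a ∈ W) :
    N * ({x | I.Src x}.ncard + {x | I.Snk x}.ncard) ≤ (Nat.card K - 1) * {p : V × V |
      I.G.Adj p.1 p.2 ∧ p.1 ∈ W ∧ p.2 ∈ ({x | I.Src x} ∪ {x | I.Snk x}) \ {v}}.ncard + 2 * N := by
  have mu : ∀ x y, {a | (I.h a ≠ I.t a ∧ I.h a ≠ v) ∧ I.h a = x ∧ I.t a = y}.ncard ≤
      Nat.card K - 1 := fun x y => by
    rcases Set.eq_empty_or_nonempty {a | (I.h a ≠ I.t a ∧ I.h a ≠ v) ∧ I.h a = x ∧ I.t a = y} with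
      e | ⟨b, hb, rfl, rfl⟩
    · rw [e, Set.ncard_empty]
      exact Nat.zero_le _
    · exact Nat.le_sub_one_of_lt ((Set.ncard_le_ncard fun a ha => ha.2).trans_lt (C.mult hb.2 hb.1))
  have ad : ∀ a, I.h a ≠ I.t a → I.G.Adj (I.h a) (I.t a) := fun a ha =>
    adj_iff.2 ⟨ha, Or.inr (Or.inr ⟨a, Or.inl ⟨rfl, rfl⟩⟩)⟩
  have b1 := fib_le {a | (I.h a ≠ I.t a ∧ I.h a ≠ v) ∧ I.Src (I.t a)} (fun a => (I.h a, I.t a))
    {p | I.G.Adj p.1 p.2 ∧ p.1 ∈ W ∧ I.Src p.2} _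
    (fun a ha => ⟨ad a ha.1.1, (w2 a ha.1.1).1, ha.2⟩) fun p => (mu p.1 p.2).trans'
      (Set.ncard_le_ncard fun a ha => ⟨ha.1.1, congrArg Prod.fst ha.2, congrArg Prod.snd ha.2⟩)
  have b2 := fib_le {a | (I.h a ≠ I.t a ∧ I.h a ≠ v) ∧ I.Snk (I.h a)} (fun a => (I.t a, I.h a))
    {p | I.G.Adj p.1 p.2 ∧ p.1 ∈ W ∧ I.Snk p.2 ∧ p.2 ≠ v} _
    (fun a ha => ⟨(ad a ha.1.1).symm, (w2 a ha.1.1).2, ha.2, ha.1.2⟩) fun p => (mu p.2 p.1).trans'
      (Set.ncard_le_ncard fun a ha => ⟨ha.1.1, congrArg Prod.snd ha.2, congrArg Prod.fst ha.2⟩)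
  have b3 : {p : V × V | I.G.Adj p.1 p.2 ∧ p.1 ∈ W ∧ I.Src p.2}.ncard +
      {p : V × V | I.G.Adj p.1 p.2 ∧ p.1 ∈ W ∧ I.Snk p.2 ∧ p.2 ≠ v}.ncard ≤ {p : V × V |
      I.G.Adj p.1 p.2 ∧ p.1 ∈ W ∧ p.2 ∈ ({x | I.Src x} ∪ {x | I.Snk x}) \ {v}}.ncard := by
    rw [← Set.ncard_union_eq (Set.disjoint_left.2 fun p h1 h2 => C.not_both h1.2.2 h2.2.2.1)]
    exact Set.ncard_le_ncard fun p hp => hp.elim
      (fun h => ⟨h.1, h.2.1, Or.inl h.2.2, fun e => C.not_both h.2.2 (e ▸ C.snk)⟩)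
      fun h => ⟨h.1, h.2.1, Or.inr h.2.2.1, h.2.2.2⟩
  have h5 := C.deg
  have h6 := Nat.mul_le_mul_left (Nat.card K - 1) b3
  rw [mul_add] at h6
  omega

theorem Ctx.false [Finite K] [Nonempty K] (C : Ctx I g N v π)
    (hN : (hea g + 9) * (Nat.card K - 1) < N) : False := by
  have h4 := C.three
  have e1 := Set.ncard_union_eq (Set.disjoint_left.2 fun _ => C.not_both :
    Disjoint {x | I.Src x} {x | I.Snk x})
  have hj : 9 * g ≤ hea g * (hea g + 7) := Nat.find_spec (exists_hea g)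
  have hF := C.few_iff
  by_cases hf : I.Few g
  · have h1 := C.count (W := {x | I.Src x} ∪ {x | I.Snk x}) fun a ha =>
      ⟨by_contra fun e => (C.clean_few hf (not_or.1 e).1 (not_or.1 e).2 ha).1 rfl,
        by_contra fun e => (C.clean_few hf (not_or.1 e).1 (not_or.1 e).2 ha).2 rfl⟩
    set H := {x | I.Src x} ∪ {x | I.Snk x}
    have h2 := fib_le {p : V × V | I.G.Adj p.1 p.2 ∧ p.1 ∈ H ∧ p.2 ∈ H \ {v}} Prod.snd (H \ {v})
      (H.ncard - 1) (fun p hp => hp.2.2) fun y => by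
        by_cases hy : y ∈ H
        · rw [← Set.ncard_sdiff_singleton_of_mem hy]
          exact Set.ncard_le_ncard_of_injOn Prod.fst (fun p hp => ⟨hp.1.2.1, hp.2 ▸ hp.1.1.ne⟩)
            fun p hp q hq e => Prod.ext e (hp.2.trans hq.2.symm)
        · refine le_trans (le_of_eq ((Set.ncard_eq_zero).2
            (Set.eq_empty_of_forall_notMem fun p hp => ?_))) (Nat.zero_le _)
          exact hy (hp.2 ▸ hp.1.2.2.1)
    rw [Set.ncard_sdiff_singleton_of_mem (show v ∈ H from Or.inr C.snk), e1] at h2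
    replace hF := hF.1 hf
    generalize {x | I.Src x}.ncard + {x | I.Snk x}.ncard = n at *
    generalize Nat.card K - 1 = k at *
    obtain ⟨j, rfl⟩ := Nat.exists_eq_add_of_le h4
    have h6 := Nat.mul_le_mul_left k (h2.trans_eq (show _ = (2 + j) * (2 + j) by
      rw [show 3 + j - 1 = 2 + j by omega]))
    have h7 : ((4 + j) * k + 1) * (1 + j) ≤ N * (1 + j) := Nat.mul_le_mul_right _
      (lt_of_le_of_lt (Nat.mul_le_mul_right _ (by omega)) hN)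
    nlinarith [Nat.zero_le (k * j)]
  have hG := C.hyp.cl.resolve_right hf
  obtain ⟨W, w1, w0, w2⟩ := C.saddles hG
  have h1 := pairs_le hG W (le_trans (e1 ▸ h4) (Set.ncard_le_ncard w0))
  have h2 := pairs_le hG _ (e1 ▸ h4)
  have h3 := pairs_mixed I.G w0
  have h5 := C.count w2
  have b3 := Set.ncard_le_ncard (s := {p : V × V |
      I.G.Adj p.1 p.2 ∧ p.1 ∈ W ∧ p.2 ∈ ({x | I.Src x} ∪ {x | I.Snk x}) \ {v}})
    (t := {p | I.G.Adj p.1 p.2 ∧ p.1 ∈ W ∧ p.2 ∈ {x | I.Src x} ∪ {x | I.Snk x}})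
    fun p hp => ⟨hp.1, hp.2.1, hp.2.2.1⟩
  rw [e1] at h2
  replace hF := not_le.1 (mt hF.2 hf)
  generalize {x | I.Src x}.ncard + {x | I.Snk x}.ncard = n at *
  generalize Nat.card K - 1 = k at *
  obtain ⟨j, rfl⟩ := Nat.exists_eq_add_of_le h4
  have h6 := Nat.mul_le_mul_left k (b3.trans (show _ ≤ 9 + 9 * j + 9 * g by omega))
  have h7 : ((hea g + 9) * k + 1) * (1 + j) ≤ N * (1 + j) := Nat.mul_le_mul_right _ hN
  have h8 := Nat.mul_le_mul_left k (hj.trans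
    (Nat.mul_le_mul_left (hea g) (show hea g + 7 ≤ 1 + j by omega)))
  nlinarith

omit [Finite V] in
theorem main [Finite K] [Nonempty K] (hN : (hea g + 9) * (Nat.card K - 1) < N) (n : ℕ) :
    IH g N A K n := by
  induction n with
  | zero => exact fun V _ I h => absurd h (Nat.not_lt_zero _)
  | succ n ih =>
    intro V _ I hV
    have ihV : IH g N A K (Nat.card V) := fun W _ J hW => ih W J (by omega)
    induction h1 : I.p1 using Nat.strong_induction_on generalizing I with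
    | _ p ih1 =>
    subst h1
    suffices H : ∀ q (J : Ins A V), J.p2 = q → J.p1 ≤ I.p1 → J.Hyp g N → J.EE N K from
      H _ I rfl le_rfl
    intro q
    induction q using Nat.strong_induction_on with
    | _ q ih2 =>
    rintro J rfl hJ hyp v π hp
    by_contra no
    exact Ctx.false ⟨hyp, hp, by omega, ihV, fun I' h => ih1 _ (h.trans_le hJ) I' rfl,
      fun I' h h' => ih2 _ h' I' rfl (h.trans hJ), no⟩ hN

end Pool.Agent.Lib.MP_cbe08d_co.Sf
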