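import Pool.Agent.Lib.MP_cbe08d_co.Sf.Defs

/-! Contraction of a connected set. -/

set_option autoImplicit false

namespace Pool.Agent.Lib.MP_cbe08d_co.Sf.Ins

variable {A V W K : Type} {I : Ins A V} {g N n : ℕ}

/-- `B` induces a connected subgraph -/
def Con (I : Ins A V) (B : Set V) : Prop :=
  ∀ x ∈ B, ∀ y ∈ B, Relation.ReflTransGen (fun p q => I.G.Adj p q ∧ p ∈ B ∧ q ∈ B) x y

theorem map_le (f : V → W) {x y : V} (h : I.le x y) : (I.map f).le (f x) (f y) := by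
  induction h with
  | refl => exact .refl
  | tail _ e ih => exact ih.tail ⟨_, _, e, rfl, rfl⟩

theorem map_ideal (f : V → W) (Z : Set W) : (I.map f).Ideal Z ↔ I.Ideal (f ⁻¹' Z) := by
  refine ⟨fun h a b e hb => h (f a) (f b) ⟨a, b, e, rfl, rfl⟩ hb, fun h => ?_⟩
  rintro _ _ ⟨a, b, e, rfl, rfl⟩ hb
  exact h a b e hb

theorem map_ent (f : V → W) (Z : Set W) : (I.map f).Ent Z = I.Ent (f ⁻¹' Z) := rfl

theorem map_nt {f : V → W} (hf : Function.Surjective f) (Z : Set W) :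
    (I.map f).NT Z ↔ I.NT (f ⁻¹' Z) := by
  rw [NT, NT, map_ideal, ← Set.preimage_compl, hf.nonempty_preimage, hf.nonempty_preimage]

/-- `EG.contract` for the class -/
theorem Hyp.map [Finite V] (h : I.Hyp g N) {f : V → W} (hf : Function.Surjective f)
    (hc : ∀ a b, f a = f b → Relation.ReflTransGen (fun p q => I.G.Adj p q ∧ f p = f q) a b) :
    (I.map f).Hyp g N := by
  refine ⟨fun Z hZ => h.strong _ ((map_nt hf Z).1 hZ), fun a => ?_, h.cl.imp (fun e => ?_) ?_⟩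
  · obtain ⟨u, s, h1, h2, h3⟩ := h.loc a
    exact ⟨f u, f s, map_le f h1, map_le f h2, map_le f h3⟩
  · refine e.contract f hc fun p q hpq => ?_
    obtain ⟨hne, ⟨a, b, e, rfl, rfl⟩ | ⟨a, b, e, rfl, rfl⟩ | ⟨a, ⟨rfl, rfl⟩ | ⟨rfl, rfl⟩⟩⟩ :=
      adj_iff.1 hpq
    · exact ⟨a, b, adj_iff.2 ⟨fun k => hne (congrArg f k), .inl e⟩, rfl, rfl⟩
    · exact ⟨b, a, adj_iff.2 ⟨fun k => hne (congrArg f k), .inr (.inl e)⟩, rfl, rfl⟩
    · exact ⟨I.h a, I.t a, adj_iff.2 ⟨fun k => hne (congrArg f k),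
        .inr (.inr ⟨a, .inl ⟨rfl, rfl⟩⟩)⟩, rfl, rfl⟩
    · exact ⟨I.t a, I.h a, adj_iff.2 ⟨fun k => hne (congrArg f k),
        .inr (.inr ⟨a, .inr ⟨rfl, rfl⟩⟩)⟩, rfl, rfl⟩
  · rintro ⟨S, T, e1, e2, e3, e4, e5⟩
    refine ⟨f '' S, f '' T, e1.image f, e2.image f,
      (Nat.add_le_add (Set.ncard_image_le e1) (Set.ncard_image_le e2)).trans e3,
      hf.forall.2 fun x => ?_, hf.forall.2 fun x => ?_⟩
    · obtain ⟨s, hs, h⟩ := e4 x
      exact ⟨f s, ⟨s, hs, rfl⟩, map_le f h⟩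
    · obtain ⟨s, hs, h⟩ := e5 x
      exact ⟨f s, ⟨s, hs, rfl⟩, map_le f h⟩

theorem quot_ex [Finite V] {B : Set V} {b : V} (hb : b ∈ B) :
    ∃ (W : Type) (_ : Finite W) (f : V → W), Function.Surjective f ∧
      (∀ x y, f x = f y ↔ x = y ∨ x ∈ B ∧ y ∈ B) ∧ Nat.card W + B.ncard = Nat.card V + 1 := by
  classical
  refine ⟨(insert b Bᶜ : Set V), inferInstance,
    fun x => if h : x ∈ B then ⟨b, .inl rfl⟩ else ⟨x, .inr h⟩, ?_, fun x y => ?_, ?_⟩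
  · rintro ⟨x, rfl | hx⟩
    · exact ⟨x, dif_pos hb⟩
    · exact ⟨x, dif_neg hx⟩
  · by_cases hx : x ∈ B <;> by_cases hy : y ∈ B
    · simp [hx, hy]
    · have h1 : b ≠ y := fun k => hy (k ▸ hb)
      have h2 : x ≠ y := fun k => hy (k ▸ hx)
      simp [hx, hy, h1, h2]
    · have h1 : x ≠ b := fun k => hx (k ▸ hb)
      have h2 : x ≠ y := fun k => hx (k ▸ hy)
      simp [hx, hy, h1, h2]
    · simp [hx, hy]
  · rw [Nat.card_coe_set_eq, Set.ncard_insert_of_notMem (not_not.2 hb),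
      ← Set.ncard_add_ncard_compl B]
    ring

/-- Fix `b ∈ B`, let `W = {x // x ∉ B ∨ x = b}` and let `f` send `B` to `b` and fix the other
points; `Nat.card W + B.ncard = Nat.card V + 1`. `R` is the preimage of a point and a saturated
set `Y` is the preimage of `f '' Y`. -/
theorem quot [Finite V] (ih : IH g N A K n) (hI : I.Hyp g N) {B : Set V} (hB : B.Nonempty)
    (hn : Nat.card V + 1 < n + B.ncard) (hc : I.Con B) {R : Set V}
    (hR : R = B ∨ ∃ v, v ∉ B ∧ R = {v}) {π : A → K} (hp : I.Pre N R π) :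
    I.Sol R π fun Y => B ⊆ Y ∨ Disjoint B Y := by
  obtain ⟨b, hb⟩ := hB
  obtain ⟨W, _, f, hf, he, hk⟩ := quot_ex hb
  obtain ⟨w, rfl⟩ : ∃ w, R = f ⁻¹' {w} := by
    rcases hR with rfl | ⟨v, hv, rfl⟩
    · exact ⟨f b, Set.ext fun x => ⟨fun h => (he x b).2 (.inr ⟨h, hb⟩),
        fun h => ((he x b).1 h).elim (fun k => k ▸ hb) And.left⟩⟩
    · exact ⟨f v, Set.ext fun x => ⟨fun h => (he x v).2 (.inl h),
        fun h => ((he x v).1 h).elim id fun k => absurd k.2 hv⟩⟩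
  have hm : (I.map f).Hyp g N := hI.map hf fun x y hxy => by
    rcases (he x y).1 hxy with rfl | ⟨hx, hy⟩
    · exact .refl
    · exact Relation.ReflTransGen.mono (fun p q k => ⟨k.1, (he p q).2 (.inr k.2)⟩) _ _
        (hc x hx y hy)
  obtain ⟨c, h1, h2⟩ := ih W (I.map f) (by omega) hm w π
    ⟨(map_nt hf _).2 hp.nt, hp.le, hp.onto⟩
  refine ⟨c, h1, fun i Y hY hS => ?_⟩
  obtain ⟨Z, rfl⟩ : ∃ Z, Y = f ⁻¹' Z := by
    refine ⟨f '' Y, (Set.subset_preimage_image f Y).antisymm ?_⟩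
    rintro x ⟨y, hy, hxy⟩
    rcases (he y x).1 hxy with rfl | ⟨k1, k2⟩
    · exact hy
    · exact hS.elim (fun k => k k2) fun k => absurd hy (Set.disjoint_left.1 k k1)
  exact (h2 i Z ((map_nt hf Z).2 hY) trivial).imp_left fun k => ⟨k.1.preimage f, k.2⟩

theorem con_pair {x y : V} (h : I.G.Adj x y) : I.Con {x, y} := by
  rintro p (rfl | rfl) q (rfl | rfl)
  · exact .refl
  · exact .single ⟨h, .inl rfl, .inr rfl⟩
  · exact .single ⟨h.symm, .inr rfl, .inl rfl⟩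
  · exact .refl

/-- If `x ∈ X`, the set `B` of points reached from `x` inside `X` is an ideal; if `X \ B` is
nonempty it is an ideal too, and the arcs entering `B` or `X \ B` are disjoint subsets of
`I.Ent X`, so `2 N ≤ N`. -/
theorem Hyp.con [Finite A] (hI : I.Hyp g N) (hN : 0 < N) {X : Set V} (hX : I.NT X)
    (hd : (I.Ent X).ncard ≤ N) : I.Con X := by
  intro x hx y hy
  obtain ⟨B, hB⟩ : ∃ B : Set V, ∀ z, z ∈ B ↔
      Relation.ReflTransGen (fun p q => I.G.Adj p q ∧ p ∈ X ∧ q ∈ X) x z := ⟨_, fun _ => Iff.rfl⟩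
  have sub : ∀ z ∈ B, z ∈ X := fun z hz => by
    rcases ((hB z).1 hz).cases_tail with rfl | ⟨_, _, k⟩
    exacts [hx, k.2.2]
  have cl : ∀ p ∈ B, ∀ q ∈ X, (I.fr p q ∨ I.fr q p ∨
      ∃ a, (I.h a = p ∧ I.t a = q) ∨ (I.h a = q ∧ I.t a = p)) → q ∈ B := fun p hp q hq k => by
    by_cases e : p = q
    · exact e ▸ hp
    · exact (hB q).2 (((hB p).1 hp).tail ⟨adj_iff.2 ⟨e, k⟩, sub p hp, hq⟩)
  refine (hB y).1 (by_contra fun hyB => ?_)
  have hxB : x ∈ B := (hB x).2 .refl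
  have n1 := hI.strong B ⟨fun a b e hb => cl b hb a (hX.1 a b e (sub b hb)) (.inr (.inl e)),
    ⟨x, hxB⟩, y, hyB⟩
  have n2 := hI.strong (X \ B) ⟨fun a b e hb => ⟨hX.1 a b e hb.1,
    fun ha => hb.2 (cl a ha b hb.1 (.inl e))⟩, ⟨y, hy, hyB⟩, x, fun k => k.2 hxB⟩
  have n3 : (I.Ent B ∪ I.Ent (X \ B)).ncard ≤ (I.Ent X).ncard := by
    refine Set.ncard_le_ncard ?_
    rintro a (ha | ha)
    · exact ⟨sub _ ha.1, fun k => ha.2 (cl _ ha.1 _ k (.inr (.inr ⟨a, .inr ⟨rfl, rfl⟩⟩)))⟩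
    · exact ⟨ha.1.1, fun k => ha.2 ⟨k, fun l =>
        ha.1.2 (cl _ l _ ha.1.1 (.inr (.inr ⟨a, .inl ⟨rfl, rfl⟩⟩)))⟩⟩
  rw [Set.ncard_union_eq (Set.disjoint_left.2 fun a ha hb => hb.1.2 ha.1)] at n3
  omega

theorem Hyp.con_compl [Finite A] (hI : I.Hyp g N) (hN : 0 < N) {X : Set V} (hX : I.NT X)
    (hd : (I.Ent X).ncard ≤ N) : I.Con Xᶜ := by
  have := hI.rev.con hN (rev_nt.2 hX) (by rwa [rev_ent])
  rwa [Con, rev_G] at this

/-- the dual form of `quot` for a tight ideal `X`, contracted to a source -/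
theorem quot_src [Finite V] [Finite A] (ih : IH g N A K n) (hI : I.Hyp g N) (hN : 0 < N)
    {X : Set V} (hX : I.NT X) (hd : (I.Ent X).ncard ≤ N) (hn : Nat.card V + 1 < n + X.ncard)
    {π : A → K} (hπ : ∀ i, ∃ a ∈ I.Ent X, π a = i) :
    ∃ c : A → K, (∀ a ∈ I.Ent X, c a = π a) ∧ ∀ i Y, I.NT Y → X ⊆ Y ∨ Disjoint X Y →
      (X ⊆ Y ∧ ∀ a ∈ I.Ent X, π a = i → I.h a ∉ Y) ∨ ∃ a ∈ I.Ent Y, c a = i ∧ I.t a ∉ X := by
  have hc : I.rev.Con X := by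
    rw [Con, rev_G]
    exact hI.con hN hX hd
  obtain ⟨c, h1, h2⟩ := quot ih hI.rev hX.2.1 hn hc (.inl rfl) (π := π)
    ⟨rev_nt.2 hX, by rwa [rev_ent], by rwa [rev_ent]⟩
  rw [rev_ent] at h1
  refine ⟨c, h1, fun i Y hY hS => ?_⟩
  have h3 := h2 i Yᶜ (rev_nt.2 hY) (hS.symm.imp Set.subset_compl_iff_disjoint_right.2
    Set.disjoint_compl_right_iff_subset.2)
  rw [Ok, rev_ent, rev_ent, Set.disjoint_compl_right_iff_subset] at h3
  exact h3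

/-- `quot` for the complement of a tight ideal `X`, contracted to a sink -/
theorem quot_snk [Finite V] [Finite A] (ih : IH g N A K n) (hI : I.Hyp g N) (hN : 0 < N)
    {X : Set V} (hX : I.NT X) (hd : (I.Ent X).ncard ≤ N) (hn : Nat.card V + 1 < n + Xᶜ.ncard)
    {π : A → K} (hπ : ∀ i, ∃ a ∈ I.Ent X, π a = i) :
    ∃ c : A → K, (∀ a ∈ I.Ent X, c a = π a) ∧ ∀ i Y, I.NT Y → Xᶜ ⊆ Y ∨ Y ⊆ X →
      (Y ⊆ X ∧ ∀ a ∈ I.Ent X, π a = i → I.t a ∈ Y) ∨ ∃ a ∈ I.Ent Y, c a = i ∧ I.h a ∈ X := by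
  obtain ⟨c, h1, h2⟩ := quot ih hI hX.2.2 hn (hI.con_compl hN hX hd) (.inl rfl) (π := π)
    ⟨by rwa [compl_compl], by rwa [compl_compl], by rwa [compl_compl]⟩
  rw [compl_compl] at h1
  refine ⟨c, h1, fun i Y hY hS => ?_⟩
  have h3 := h2 i Y hY (hS.imp_right Set.disjoint_compl_left_iff_subset.2)
  rw [Ok, compl_compl, Set.disjoint_compl_left_iff_subset] at h3
  exact h3.imp_right fun ⟨a, k1, k2, k3⟩ => ⟨a, k1, k2, not_not.1 k3⟩

end Pool.Agent.Lib.MP_cbe08d_co.Sf.Ins
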