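import Pool.Agent.Lib.MP_cbe08d_co.Sf.Ops2

/-! Middle vertices with one block of lower and one block of upper neighbours carry no arcs. -/

set_option autoImplicit false

namespace Pool.Agent.Lib.MP_cbe08d_co.Sf

open Ins

variable {A V K : Type} [Finite V] [Finite A] {I : Ins A V} {g N : ℕ} {v : V} {π : A → K}

def Ins.Low (I : Ins A V) (m n : V) : Prop :=
  n ≠ m ∧ (I.fr n m ∨ ∃ a, I.h a = m ∧ I.t a = n)

def Ins.High (I : Ins A V) (m n : V) : Prop :=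
  n ≠ m ∧ (I.fr m n ∨ ∃ a, I.h a = n ∧ I.t a = m)

def Ins.Blk (I : Ins A V) (g : ℕ) (m : V) : Prop :=
  ∃ n0 n1, I.Add g n1 n0 ∧
    (∀ n, I.Low m n →
      Relation.ReflTransGen (fun p q => I.Low m p ∧ I.Low m q ∧ I.Add g p q) n n0) ∧
    ∀ n, I.High m n →
      Relation.ReflTransGen (fun p q => I.High m p ∧ I.High m q ∧ I.Add g p q) n n1

/-- two properties that never meet along a step meet only at the end point -/
theorem block {r : V → V → Prop} {P Q : V → Prop} {n0 : V}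
    (h : ∀ p q, r p q → p ≠ q → (P p ∨ Q p) ∧ (P q ∨ Q q) ∧ ¬(P p ∧ Q q) ∧ ¬(Q p ∧ P q)) {x y : V}
    (hx : Relation.ReflTransGen r x n0) (hy : Relation.ReflTransGen r y n0) (hP : P x) (hQ : Q y) :
    x = n0 ∧ y = n0 := by
  have key : ∀ z, Relation.ReflTransGen r z n0 →
      z = n0 ∨ (P z ∧ ¬Q z ∧ P n0 ∧ ¬Q n0) ∨ (Q z ∧ ¬P z ∧ Q n0 ∧ ¬P n0) := fun z hz => by
    induction hz using Relation.ReflTransGen.head_induction_on with
    | refl => exact Or.inl rfl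
    | @head p q h1 _ ih =>
      by_cases e : p = q
      · exact e ▸ ih
      · obtain ⟨a1, a2, a3, a4⟩ := h p q h1 e
        rcases ih with rfl | ih | ih <;> tauto
  rcases key x hx with rfl | h1 | h1 <;> rcases key y hy with rfl | h2 | h2 <;> tauto

theorem Ctx.clean (C : Ctx I g N v π) {m : V} (h1 : ¬I.Src m) (h2 : ¬I.Snk m) (hb : I.Blk g m)
    {a : A} (ha : I.h a ≠ I.t a) : I.h a ≠ m ∧ I.t a ≠ m := by
  obtain ⟨n0, n1, hadd, hl, hh⟩ := hb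
  simp only [Src, Snk, not_forall] at h1 h2
  obtain ⟨x, hx, hxm⟩ := id h1
  obtain ⟨y, hy, hym⟩ := id h2
  have h1' : ¬I.Src m := fun e => hxm (e x hx)
  have h2' : ¬I.Snk m := fun e => hym (e y hy)
  have HL : ∀ b, I.h b = m → I.t b ≠ m → ∀ z, I.fr z m → z ≠ m → I.t b = n0 ∧ z = n0 := by
    intro b e1 e2 z e3 e4
    refine block (P := fun n => ∃ a, I.h a = m ∧ I.t a = n) (Q := fun n => I.fr n m) ?_
      (hl _ ⟨e2, Or.inr ⟨b, e1, rfl⟩⟩) (hl _ ⟨e4, Or.inl e3⟩) ⟨b, e1, rfl⟩ e3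
    rintro p q ⟨l1, l2, l3⟩ e
    refine ⟨l1.2.symm, l2.2.symm, ?_, ?_⟩
    · rintro ⟨⟨c, rfl, rfl⟩, c3⟩
      exact C.r1 h2' l1.1.symm c3 l2.1 (Ne.symm e) l3.symm
    · rintro ⟨c3, c, rfl, rfl⟩
      exact C.r1 h2' l2.1.symm c3 l1.1 e l3
  have HH : ∀ b, I.t b = m → I.h b ≠ m → ∀ z, I.fr m z → z ≠ m → I.h b = n1 ∧ z = n1 := by
    intro b e1 e2 z e3 e4
    refine block (P := fun n => ∃ a, I.h a = n ∧ I.t a = m) (Q := fun n => I.fr m n) ?_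
      (hh _ ⟨e2, Or.inr ⟨b, rfl, e1⟩⟩) (hh _ ⟨e4, Or.inl e3⟩) ⟨b, rfl, e1⟩ e3
    rintro p q ⟨l1, l2, l3⟩ e
    refine ⟨l1.2.symm, l2.2.symm, ?_, ?_⟩
    · rintro ⟨⟨c, rfl, rfl⟩, c3⟩
      exact C.r2 h1' l1.1 c3 l2.1 (Ne.symm e) l3
    · rintro ⟨c3, c, rfl, rfl⟩
      exact C.r2 h1' l2.1 c3 l1.1 e l3.symm
  have key : ∀ c b, I.t c = m → I.h c ≠ m → I.h b = m → I.t b ≠ m → False := by
    intro c b e1 e2 e3 e4
    obtain ⟨f1, f2⟩ := HL b e3 e4 x hx hxm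
    obtain ⟨f3, f4⟩ := HH c e1 e2 y hy hym
    refine C.r3 (e1.trans e3.symm) (e1 ▸ e2) (e3 ▸ e4.symm) ?_ ?_ (f1 ▸ f3 ▸ hadd)
    · rwa [e1, f3, ← f4]
    · rwa [e3, f1, ← f2]
  refine ⟨fun e => ?_, fun e => ?_⟩
  · obtain ⟨c, c1, c2⟩ := C.c1 (x := n0) h1' h2' fun z hz =>
      (em (z = m)).symm.imp_left fun e' => (HL a e (e ▸ ha.symm) z hz e').2
    exact key c a c1 c2 e (e ▸ ha.symm)
  · obtain ⟨c, c1, c2⟩ := C.c2 (y := n1) h1' h2' fun z hz =>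
      (em (z = m)).symm.imp_left fun e' => (HH a e (e ▸ ha) z hz e').2
    exact key a c e (e ▸ ha) c1 c2

/-- no vertex is a source and a sink -/
theorem Ctx.not_both (C : Ctx I g N v π) {x : V} (h1 : I.Src x) : ¬I.Snk x := by
  intro h2
  have h3 : ({x}ᶜ : Set V).Nonempty := by
    by_cases e : v = x
    · exact e ▸ C.pre.nt.2.1
    · exact ⟨v, e⟩
  obtain ⟨a, a1, a2⟩ := Set.nonempty_of_ncard_ne_zero (C.pos.trans_le
    (C.hyp.strong {x} ⟨ideal_single.2 h1, Set.singleton_nonempty x, h3⟩)).ne'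
  obtain ⟨u, s, b1, b2, b3⟩ := C.hyp.loc a
  rw [a1] at b3
  rw [h1.eq b3] at b2
  rw [h2.eq b2] at b1
  exact a2 (h1.eq b1)

theorem red_min (r : V → V → Prop)
    (h : ∀ x y, Relation.ReflTransGen r x y → Relation.ReflTransGen r y x → x = y) (x : V) :
    ∃ s, (∀ z, r z s → z = s) ∧ Relation.ReflTransGen r s x := by
  obtain ⟨s, h1, h2⟩ := Set.exists_min_image {z | Relation.ReflTransGen r z x}
    (fun z => {w | Relation.ReflTransGen r w z}.ncard) (Set.toFinite _) ⟨x, .refl⟩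
  refine ⟨s, fun z hz => h _ _ (.single hz) ?_, h1⟩
  have := Set.eq_of_subset_of_ncard_le (s := {w | Relation.ReflTransGen r w z})
    (t := {w | Relation.ReflTransGen r w s}) (fun w hw => hw.tail hz) (h2 z (.head hz h1))
  exact (Set.ext_iff.1 this s).2 .refl

theorem Ctx.exists_src (C : Ctx I g N v π) (x : V) : ∃ s, I.Src s ∧ I.le s x :=
  red_min I.fr (fun _ _ => C.anti) x

theorem Ctx.exists_snk (C : Ctx I g N v π) (x : V) : ∃ u, I.Snk u ∧ I.le x u := by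
  obtain ⟨u, h1, h2⟩ := red_min I.rev.fr (fun _ _ a b => C.anti (rev_le.1 b) (rev_le.1 a)) x
  exact ⟨u, h1, rev_le.1 h2⟩

theorem Ctx.few_iff (C : Ctx I g N v π) :
    I.Few g ↔ {x | I.Src x}.ncard + {x | I.Snk x}.ncard ≤ hea g + 8 := by
  refine ⟨fun ⟨S, T, e1, e2, e3, e4, e5⟩ => le_trans (Nat.add_le_add
    (Set.ncard_le_ncard (fun x hx => ?_) e1) (Set.ncard_le_ncard (fun x hx => ?_) e2)) e3,
    fun h => ⟨_, _, Set.toFinite _, Set.toFinite _, h, C.exists_src, C.exists_snk⟩⟩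
  · obtain ⟨s, h1, h2⟩ := e4 x
    exact Src.eq hx h2 ▸ h1
  · obtain ⟨s, h1, h2⟩ := e5 x
    exact Snk.eq hx h2 ▸ h1

/-- with few sources and sinks no middle vertex carries an arc -/
theorem Ctx.clean_few (C : Ctx I g N v π) (hT : I.Few g) {m : V} (h1 : ¬I.Src m) (h2 : ¬I.Snk m)
    {a : A} (ha : I.h a ≠ I.t a) : I.h a ≠ m ∧ I.t a ≠ m := by
  refine C.clean h1 h2 ?_ ha
  simp only [Src, Snk, not_forall] at h1 h2
  obtain ⟨x, hx, hxm⟩ := h1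
  obtain ⟨y, hy, hym⟩ := h2
  exact ⟨x, y, Or.inr hT, fun n hn => .single ⟨hn, ⟨hxm, Or.inl hx⟩, Or.inr hT⟩,
    fun n hn => .single ⟨hn, ⟨hym, Or.inl hy⟩, Or.inr hT⟩⟩

theorem Ctx.three (C : Ctx I g N v π) : 3 ≤ {x | I.Src x}.ncard + {x | I.Snk x}.ncard := by
  by_contra hn
  obtain ⟨s, hs, -⟩ := C.exists_src v
  have h1 := (Set.ncard_pos (s := {x | I.Src x})).2 ⟨s, hs⟩
  have h2 := (Set.ncard_pos (s := {x | I.Snk x})).2 ⟨v, C.snk⟩
  have h3 := (Set.ncard_le_one (s := {x | I.Src x})).1 (by omega)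
  have h4 := (Set.ncard_le_one (s := {x | I.Snk x})).1 (by omega)
  refine C.no ⟨π, fun _ _ => rfl, fun i Y hY _ => Or.inl ⟨?_, fun a ha _ => ?_⟩⟩
  · obtain ⟨y, hy⟩ := hY.2.2
    obtain ⟨z, z1, z2⟩ := C.exists_snk y
    exact Set.disjoint_singleton_left.2 fun hv => hy (hY.1.le z2 (h4 v C.snk z z1 ▸ hv))
  obtain ⟨a1, a2⟩ := mem_ent_compl.1 ha
  by_cases h5 : I.Src (I.t a)
  · obtain ⟨y, hy⟩ := hY.2.1
    obtain ⟨z, z1, z2⟩ := C.exists_src y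
    exact h3 z z1 _ h5 ▸ hY.1.le z2 hy
  exact absurd rfl (C.clean_few (C.few_iff.2 (by omega)) h5 (fun h6 => a2 (h4 _ h6 v C.snk))
    (a1 ▸ a2.symm)).2

end Pool.Agent.Lib.MP_cbe08d_co.Sf
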