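import Pool.Agent.Lib.MP_cbe08d_co.Sf.Fin

/-!
Digraphs embedded in a surface (orientable or not) of Euler genus at most `γ`, where
`9 γ ≤ j (j + 7)`: an arc set with more than `(j + 9) (k - 1)` arcs in every directed cut splits
into `k` dijoins (planar digraphs: `γ = j = 0`).
-/

set_option autoImplicit false

namespace Pool.Agent.Lib.MP_cbe08d_co.Sf.Surface

/-- The number of cycles (orbits, fixed points included) of a permutation. -/
noncomputable def cycles {D : Type} (π : Equiv.Perm D) : ℕ :=
  Nat.card (Quotient (Equiv.Perm.SameCycle.setoid π))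

/-- The rotation `σ` followed forwards in state `true` and backwards in state `false`. -/
def turn {D : Type} (σ : Equiv.Perm D) : Equiv.Perm (D × Bool) :=
  Equiv.prodCongrLeft fun ε => cond ε σ σ⁻¹

/-- Running along an edge: the dart (oriented edge) is reversed, and the state changes when the
edge is twisted (`s e = true`). -/
def cross {V : Type} (G : SimpleGraph V) (s : Sym2 V → Bool) : Equiv.Perm (G.Dart × Bool) :=
  Function.Involutive.toPerm (fun x => (x.1.symm, xor x.2 (s x.1.edge))) fun x => by
    simp

/-- `G` has Euler genus at most `γ`: there is an embedding scheme, made of a rotation system `σ`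
(a permutation of the darts whose cycles are the sets of darts leaving a common vertex) and a
signature `s` (the twisted edges), with `V - E + F ≥ 2 C - γ`. Here `C` is the number of
components, every face is traced twice (once in each direction) by the cycles of
`turn σ * cross G s`, and each isolated vertex has one face; the inequality is doubled. -/
def EulerGenusLE {V : Type} (γ : ℕ) (G : SimpleGraph V) : Prop :=
  ∃ (σ : Equiv.Perm G.Dart) (s : Sym2 V → Bool), (∀ x y, σ.SameCycle x y ↔ x.fst = y.fst) ∧
    2 * G.edgeSet.ncard + 4 * Nat.card G.ConnectedComponent ≤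
      2 * Nat.card V + (cycles (turn σ * cross G s) + 2 * {v | ∀ w, ¬G.Adj v w}.ncard) + 2 * γ

/-- The underlying simple graph of a digraph: two different vertices are adjacent when some arc
joins them in one of the two directions. -/
def underlying {V A : Type} (tail head : A → V) : SimpleGraph V :=
  SimpleGraph.fromRel fun x y => ∃ a : A, tail a = x ∧ head a = y

open Pool.Agent.Lib.MP_cbe08d_co.Sf in
theorem result :
    ∀ γ j k : ℕ, 9 * γ ≤ j * (j + 7) → 0 < k →
      ∀ (V A : Type) [Finite V] [Finite A] (tail head : A → V) (J : Set A),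
        EulerGenusLE γ (underlying tail head) →
        (∀ S : Set V, (∀ a : A, head a ∈ S → tail a ∈ S) →
            (∃ a : A, tail a ∈ S ∧ head a ∉ S) →
            (j + 9) * (k - 1) < Set.ncard {a : A | a ∈ J ∧ tail a ∈ S ∧ head a ∉ S}) →
        ∃ c : A → Fin k, ∀ i : Fin k, ∀ S : Set V,
            (∀ a : A, head a ∈ S → tail a ∈ S) →
            (∃ a : A, tail a ∈ S ∧ head a ∉ S) →
            ∃ a : A, a ∈ J ∧ c a = i ∧ tail a ∈ S ∧ head a ∉ S := by
  intro γ j k hj hk V A _ _ tail head J ⟨σ, s, h1, h2⟩ hJ
  exact dijoins hk tail head J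
    (eg_of_scheme σ s (turn σ) (cross _ s) h1 (fun _ => rfl) (fun _ => rfl) (fun _ _ => rfl) h2)
    fun S h3 h4 => (Nat.mul_le_mul_right _
      (Nat.add_le_add_right (Nat.find_min' (exists_hea γ) hj) 9)).trans_lt (hJ S h3 h4)

end Pool.Agent.Lib.MP_cbe08d_co.Sf.Surface
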